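import Mathlib

/-! Project HP (helper560): finite birational morphisms onto normal schemes. Statement
(NOT a result). -/

set_option autoImplicit false

namespace W560.HP

open AlgebraicGeometry CategoryTheory

def S_NRM : Prop :=
  ∀ (X Y : Scheme.{0}) [IsIntegral X] [IsIntegral Y] (π : Y ⟶ X),
    (∀ x : X, IsIntegrallyClosed (X.presheaf.stalk x)) → IsFinite π → Surjective π →
    Function.Surjective (π.stalkMap (genericPoint Y)).hom → IsIso π

end W560.HP
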