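import Mathlib
import Pool.Agent.W560.Sep.Det

/-! Project HP (helper560): the Hilbert property for chain hypersurfaces
`x_0^(d-1) x_1 + ... + x_d^(d-1) x_(d+1) + R(x_(d+1), ..., x_n) = 0`, `d >= 4`, `n >= d + 1`,
over every finitely generated field of characteristic zero.
Task statements (NOT results): copy the Prop you prove, `theorem foo : S_xxx := ...`. -/

set_option autoImplicit false

namespace W560.HP

open Finset Polynomial
open W560.Sep (dt)

/-! ### A. Hilbertian fields and function fields -/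

/-- Hilbertian field; the same text as `Pool.Agent.H391R2.T4.HilbField`. -/
def HilbF (K : Type) [Field K] : Prop :=
  ∀ (f : Polynomial (Polynomial K)), f.Monic → Irreducible f →
    (f.map (algebraMap (Polynomial K) (FractionRing (Polynomial K)))).Separable →
    ∀ g : Polynomial K, g ≠ 0 →
      ∃ a : K, g.eval a ≠ 0 ∧ Irreducible (f.map (Polynomial.evalRingHom a))

/-- Hilbert irreducibility for finitely many polynomials in several variables, root version. -/
def HilbNR (k : Type) [Field k] : Prop :=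
  ∀ (ι : Type) [Finite ι] (q : ℕ) (P : Fin q → (MvPolynomial ι k)[X]) (g : MvPolynomial ι k),
    g ≠ 0 →
    (∀ (j : Fin q) (θ : FractionRing (MvPolynomial ι k)),
      ((P j).map (algebraMap (MvPolynomial ι k) (FractionRing (MvPolynomial ι k)))).eval θ ≠ 0) →
    ∃ a : ι → k, MvPolynomial.eval a g ≠ 0 ∧
      ∀ (j : Fin q) (x : k), ((P j).map (MvPolynomial.eval a)).eval x ≠ 0

/-- The Hilbert property of the function field `K` over `k`, in birationally invariant form: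
for all finitely many polynomials over `K` without root in `K` and all finite sets `S` in `K`
there is a `k`-rational place, finite on `S` and on the coefficients, at which none of the
specialised polynomials has a root in `k`. -/
def HPF (k K : Type) [Field k] [Field K] [Algebra k K] : Prop :=
  ∀ (q : ℕ) (P : Fin q → K[X]), (∀ (j : Fin q) (x : K), (P j).eval x ≠ 0) → ∀ S : Finset K,
    ∃ (B : Subalgebra k K) (φ : B →ₐ[k] k) (P' : Fin q → B[X]),
      (S : Set K) ⊆ B ∧ (∀ j, (P' j).map (algebraMap B K) = P j) ∧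
      ∀ (j : Fin q) (x : k), ((P' j).map (φ : B →+* k)).eval x ≠ 0

def S_HIT : Prop := ∀ (k : Type) [Field k] [CharZero k], HilbF k → HilbNR k

def S_FG : Prop := ∀ (k : Type) [Field k] [CharZero k] (S : Finset k),
  IntermediateField.adjoin ℚ (S : Set k) = ⊤ → HilbF k

def S_HPF : Prop :=
  ∀ (k Ω ι : Type) [Field k] [Field Ω] [Algebra k Ω] [Finite ι] (t : ι → Ω)
    (K : IntermediateField k Ω), HilbNR k → AlgebraicIndependent k t →
    IntermediateField.adjoin k (Set.range t) = ⊤ →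
    (∀ x : Ω, IsAlgebraic K x → x ∈ K) → HPF k K

def S_HPI : Prop :=
  ∀ (k K K' : Type) [Field k] [Field K] [Field K'] [Algebra k K] [Algebra k K'],
    Nonempty (K ≃ₐ[k] K') → HPF k K → HPF k K'

/-! ### B. Derivations -/

def S_D1 : Prop :=
  ∀ (k F ι : Type) [Field k] [CharZero k] [Field F] [Algebra k F] [Finite ι] [DecidableEq ι]
    (w : ι → F), AlgebraicIndependent k w → ∀ i : ι,
    ∃ D : Derivation k F F, ∀ j, D (w j) = if j = i then 1 else 0

/-- the data of a specialisation in which `w i` is a variable and the other `w j` are constants -/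
def SpecAt (k F ι : Type) [Field k] [Field F] [Algebra k F] (w : ι → F) (i : ι) : Prop :=
  ∃ (E : Type) (_ : Field E) (_ : Algebra k E) (B : Subalgebra k F) (φ : B →ₐ[k] E[X])
    (v : ι → E), Function.Injective φ ∧
    (∀ x : F, IsIntegral (Algebra.adjoin k (Set.range w)) x → x ∈ B) ∧
    (∀ (j : ι) (h : w j ∈ B), j ≠ i → φ ⟨w j, h⟩ = C (v j)) ∧
    (∀ h : w i ∈ B, φ ⟨w i, h⟩ = X)

def S_D2 : Prop :=
  ∀ (k F ι : Type) [Field k] [CharZero k] [Field F] [Algebra k F] [Finite ι] [DecidableEq ι]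
    (w : ι → F), AlgebraicIndependent k w → ∀ (i : ι) (D : Derivation k F F),
    (∀ j, D (w j) = if j = i then 1 else 0) → SpecAt k F ι w i →
    ∀ x : F, IsIntegral (Algebra.adjoin k (Set.range w)) x → ∃ N : ℕ, D^[N] x = 0

def S_D3 : Prop :=
  ∀ (k F ι : Type) [Field k] [CharZero k] [Field F] [Algebra k F] [Finite ι] [DecidableEq ι]
    (w : ι → F), AlgebraicIndependent k w →
    (∀ x : F, IsAlgebraic k x → x ∈ Set.range (algebraMap k F)) →
    ∀ D : ι → Derivation k F F, (∀ i j, D i (w j) = if j = i then 1 else 0) →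
    (∀ (i : ι) (x : F), IsIntegral (Algebra.adjoin k (Set.range w)) x →
      ∃ N : ℕ, (D i)^[N] x = 0) →
    ∀ x : F, IsAlgebraic (IntermediateField.adjoin k (Set.range w)) x →
      x ∈ IntermediateField.adjoin k (Set.range w)

/-! ### C. A discrete valuation ring with given residue field -/

def S_SPZ : Prop :=
  ∀ (k Q : Type) [Field k] [Field Q] [Algebra k Q],
    ∃ (M : Type) (_ : Field M) (_ : Algebra k M) (κ : Q →ₐ[k] M) (ε : M) (O : Subalgebra k M)
      (π : O →ₐ[k] Q),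
      (∀ q : Q, ∃ h : κ q ∈ O, π ⟨κ q, h⟩ = q) ∧ (∃ h : ε ∈ O, π ⟨ε, h⟩ = 0) ∧
      (∀ x : O, π x ≠ 0 → (x : M)⁻¹ ∈ O) ∧ (∀ x : M, IsIntegral O x → x ∈ O) ∧
      ∀ p : Q[X], p ≠ 0 → (p.map (κ : Q →+* M)).eval ε ≠ 0

/-- from a place to `SpecAt` -/
def S_LAU : Prop :=
  ∀ (k F ι : Type) [Field k] [Field F] [Algebra k F] [Finite ι] [DecidableEq ι]
    (w : ι → F) (i : ι) (E : Type) [Field E] [Algebra k E] (v : ι → E),
    AlgebraicIndependent k (fun j : {j : ι // j ≠ i} => v j) →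
    ∀ (M : Type) [Field M] [Algebra k M] (O : Subalgebra k M) (π : O →ₐ[k] FractionRing E[X])
      (Ψ : F →ₐ[k] M), (∀ x : M, IsIntegral O x → x ∈ O) →
      (∀ j : ι, j ≠ i → ∃ h : Ψ (w j) ∈ O,
        π ⟨Ψ (w j), h⟩ = algebraMap E[X] (FractionRing E[X]) (C (v j))) →
      (∃ h : Ψ (w i) ∈ O, π ⟨Ψ (w i), h⟩ = algebraMap E[X] (FractionRing E[X]) X) →
      AlgebraicIndependent k w ∧ SpecAt k F ι w i

/-- maps between purely transcendental extensions -/
def S_LIFT : Prop :=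
  ∀ (k F M ι : Type) [Field k] [Field F] [Algebra k F] [Field M] [Algebra k M] (x : ι → F)
    (y : ι → M), AlgebraicIndependent k x → AlgebraicIndependent k y →
    IntermediateField.adjoin k (Set.range x) = ⊤ → ∃ Ψ : F →ₐ[k] M, ∀ i, Ψ (x i) = y i

/-! ### D. Algebraically closed subfields and base change -/

def S_BC0 : Prop :=
  ∀ (A Ω ι : Type) [Field A] [Field Ω] [Algebra A Ω] (t : ι → Ω), AlgebraicIndependent A t →
    ∀ x ∈ IntermediateField.adjoin A (Set.range t), IsAlgebraic A x →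
      x ∈ Set.range (algebraMap A Ω)

def S_BC1 : Prop :=
  ∀ (A B Ω ι : Type) [Field A] [CharZero A] [Field B] [Field Ω] [Algebra A B] [Algebra B Ω]
    [Algebra A Ω] [IsScalarTower A B Ω] [Finite ι] (t : ι → Ω),
    (∀ x : B, IsAlgebraic A x → x ∈ Set.range (algebraMap A B)) → AlgebraicIndependent B t →
    ∀ x ∈ IntermediateField.adjoin B (Set.range t),
      IsAlgebraic (IntermediateField.adjoin A (Set.range t)) x →
      x ∈ IntermediateField.adjoin A (Set.range t)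

def S_BC2 : Prop :=
  ∀ (A B Ω : Type) [Field A] [CharZero A] [Field B] [Field Ω] [Algebra A B] [Algebra B Ω]
    [Algebra A Ω] [IsScalarTower A B Ω] (S : Finset Ω),
    (∀ x : B, IsAlgebraic A x → x ∈ Set.range (algebraMap A B)) → (∀ s ∈ S, IsAlgebraic A s) →
    ∀ x ∈ IntermediateField.adjoin B (S : Set Ω), IsAlgebraic A x →
      x ∈ IntermediateField.adjoin A (S : Set Ω)

/-- base change of algebraically closed extensions -/
def S_BC : Prop :=
  ∀ (k Ω : Type) [Field k] [CharZero k] [Field Ω] [Algebra k Ω]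
    (K₀ F₀ K : IntermediateField k Ω), K₀ ≤ F₀ → K₀ ≤ K →
    (∀ x ∈ F₀, IsAlgebraic K₀ x → x ∈ K₀) →
    (∃ S : Finset Ω, K = K₀ ⊔ IntermediateField.adjoin k (S : Set Ω)) →
    (∃ T : Finset Ω, (T : Set Ω) ⊆ K ∧ AlgebraicIndependent F₀ (fun x : T => (x : Ω)) ∧
      ∀ x ∈ K, IsAlgebraic (IntermediateField.adjoin K₀ (T : Set Ω)) x) →
    ∀ x ∈ F₀ ⊔ K, IsAlgebraic K x → x ∈ K

/-- counting transcendence degrees -/
def S_CNT : Prop :=
  ∀ (k Ω : Type) [Field k] [Field Ω] [Algebra k Ω] (a s : ℕ) (β : Fin (a + s + 1) → Ω),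
    AlgebraicIndependent k β →
    ∀ (f : Fin a → Ω) (T : Fin (s + 1) → Ω) (c : Ω) (K₀ : IntermediateField k Ω),
      K₀ ≤ IntermediateField.adjoin k (Set.range f) → ¬ AlgebraicIndependent K₀ T →
      (∀ x : Ω, IsAlgebraic
        (IntermediateField.adjoin k (Set.range f ∪ Set.range T ∪ {c})) x) →
      AlgebraicIndependent k f ∧
      Transcendental (IntermediateField.adjoin k (Set.range f ∪ Set.range T)) c ∧
      ∃ J : Finset (Fin (s + 1)), J.card = s ∧
        AlgebraicIndependent (IntermediateField.adjoin k (Set.range f)) (fun j : J => T j) ∧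
        ∀ i, IsAlgebraic (IntermediateField.adjoin K₀ (T '' (J : Set (Fin (s + 1))))) (T i)

/-! ### E. The contact system -/

section contact

variable {A : Type*} [CommRing A]

/-- contact polynomials with nodes `r 0, r 1, ...` (absent nodes are `0`) -/
noncomputable def g (m : ℕ) (r : ℕ → A) (j : ℕ) : A[X] := (X + C (r j)) ^ m * (X + C (r (j + 1)))

/-- derivative of `∑ τ j * g m r j` with respect to `r j` -/
noncomputable def h (m : ℕ) (r τ : ℕ → A) (j : ℕ) : A[X] :=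
  C ((m : A) * τ j) * (X + C (r j)) ^ (m - 1) * (X + C (r (j + 1)))
    + (if j = 0 then 0 else C (τ (j - 1)) * (X + C (r (j - 1))) ^ m)

/-- `σ 0, ..., σ q` are the present nodes; the weights `τ` solve the contact system of level `q`,
non-degenerately -/
structure Lev (m q : ℕ) (σ : ℕ → ℕ) (r τ : ℕ → A) : Prop where
  r0 : ∀ j, (∀ i ≤ q, σ i ≠ j) → r j = 0
  t0 : ∀ j, (∀ i ≤ q, σ i ≠ j) → τ j = 0
  p1 : ∀ l < q, ∑ i ∈ range (q + 1), (g m r (σ i)).coeff l * τ (σ i) = 0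
  p2 : dt (q + 1) (fun l i => (g m r (σ i)).coeff l) ≠ 0
  p3 : dt (q + 1) (fun l i => (h m r τ (σ i)).coeff l) ≠ 0
  p4 : ∀ i ≤ q, τ (σ i) ≠ 0

end contact

def S_STEP : Prop :=
  ∀ (K : Type) [Field K] [CharZero K] (m q : ℕ) (σ : ℕ → ℕ) (r τ : ℕ → K), 2 ≤ q → q < m →
    (∀ i ≤ q + 1, ∀ j ≤ q + 1, σ i = σ j → i = j) → (∀ i ≤ q, σ i ≠ σ (q + 1) + 1) →
    Lev m q σ r τ → ∃ r' τ' : ℕ → K[X], Lev m (q + 1) σ r' τ'

/-- three consecutive nodes -/
def S_BASE3 : Prop :=
  ∀ (K : Type) [Field K] [CharZero K] (m a : ℕ) (σ : ℕ → ℕ), 2 ≤ m → σ 0 = a → σ 1 = a + 1 →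
    σ 2 = a + 2 → ∃ r τ : ℕ → K, Lev m 2 σ r τ

/-- the nodes `0, 1, 3, 4` for `m = 3` -/
def S_BASE22 : Prop :=
  ∀ (K : Type) [Field K] [CharZero K] (σ : ℕ → ℕ), σ 0 = 0 → σ 1 = 1 → σ 2 = 3 → σ 3 = 4 →
    ∃ r τ : ℕ → K, Lev 3 3 σ r τ

/-- all nodes of `0, ..., m + 1` except `i` -/
def S_LEV : Prop :=
  ∀ (k : Type) [Field k] [CharZero k] (m i : ℕ), 3 ≤ m → i ≤ m + 1 →
    ∃ (K : Type) (_ : Field K) (_ : Algebra k K) (σ : ℕ → ℕ) (r τ : ℕ → K),
      (∀ p ≤ m, ∀ q ≤ m, σ p = σ q → p = q) ∧ (∀ p ≤ m, σ p ≤ m + 1 ∧ σ p ≠ i) ∧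
      Lev m m σ r τ

/-- a non-degenerate solution at generic nodes -/
def S_GEN : Prop :=
  ∀ (k : Type) [Field k] [CharZero k] (m : ℕ) (σ : ℕ → ℕ), 1 ≤ m →
    (∀ p ≤ m, ∀ q ≤ m, σ p = σ q → p = q) →
    (∃ (K : Type) (_ : Field K) (_ : Algebra k K) (r τ : ℕ → K), Lev m m σ r τ) →
    ∃ r t : ℕ → MvPolynomial (Fin (m + 1)) k,
      (∀ p : Fin (m + 1), r (σ p) = MvPolynomial.X p) ∧ Lev m m σ r t

/-- the differential of the contact system is injective modulo the Euler vector -/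
def S_EUL : Prop :=
  ∀ (E : Type) [Field E] [CharZero E] (m : ℕ) (σ : ℕ → ℕ) (r τ : ℕ → E), 1 ≤ m →
    (∀ p ≤ m, ∀ q ≤ m, σ p = σ q → p = q) → Lev m m σ r τ → ∀ e : ℕ → E,
    (∀ l < m, ∑ i ∈ range (m + 1), (h m r τ (σ i)).coeff l * e (σ i) = 0) →
    ∃ κ : E, ∀ i ≤ m, e (σ i) = κ * r (σ i)

/-- differentiating the contact system -/
def S_DIFF : Prop :=
  ∀ (k E : Type) [Field k] [Field E] [Algebra k E] (m : ℕ) (σ : ℕ → ℕ) (r τ : ℕ → E)
    (D : Derivation k E E), 1 ≤ m →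
    (∀ p ≤ m, ∀ q ≤ m, σ p = σ q → p = q) → Lev m m σ r τ → (∀ i ≤ m, D (τ (σ i)) = 0) →
    ∀ l < m, ∑ i ∈ range (m + 1), (h m r τ (σ i)).coeff l * D (r (σ i)) = 0

/-- the generic solution of the contact system with the node `i` removed: its weights are
algebraically independent -/
def S_BRK : Prop :=
  ∀ (k : Type) [Field k] [CharZero k] (m i : ℕ), 3 ≤ m → i ≤ m + 1 →
    ∃ (E : Type) (_ : Field E) (_ : Algebra k E) (r v : ℕ → E), r i = 0 ∧ v i = 0 ∧
      (∀ j, m + 2 ≤ j → r j = 0) ∧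
      (∀ l < m, ∑ j ∈ range (m + 2), (g m r j).coeff l * v j = 0) ∧
      AlgebraicIndependent k (fun j : {j : Fin (m + 2) // (j : ℕ) ≠ i} => v j) ∧
      (∀ b ≤ m + 1, b ≠ i → ∀ t : ℕ → E,
        (∀ l < m, ∑ j ∈ range (m + 2), (g m r j).coeff l * t j = 0) → t i = 0 → t b = 0 →
        ∀ j ≤ m + 1, t j = 0) ∧
      ∀ b ≤ m + 1, b ≠ i → AlgebraicIndependent k
        (fun o : Option {j : Fin (m + 2) // (j : ℕ) ≠ i} => o.elim (v b) (fun j => r j))

/-- at generic nodes the weights of a solution are determined by any two of them -/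
def S_CHART : Prop :=
  ∀ (k Ω : Type) [Field k] [CharZero k] [Field Ω] [Algebra k Ω] (m : ℕ) (r : ℕ → Ω), 3 ≤ m →
    AlgebraicIndependent k (fun j : Fin (m + 2) => r j) → (∀ j, m + 2 ≤ j → r j = 0) →
    ∀ a ≤ m + 1, ∀ b ≤ m + 1, a ≠ b → ∀ t : ℕ → Ω,
    (∀ l < m, ∑ j ∈ range (m + 2), (g m r j).coeff l * t j = 0) → t a = 0 → t b = 0 →
    ∀ j ≤ m + 1, t j = 0

/-- a generic point of the contact system -/
structure GenPt (k F : Type) [Field k] [Field F] [Algebra k F] (m : ℕ) (r w : ℕ → F) : Prop where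
  r0 : ∀ j, m + 2 ≤ j → r j = 0
  con : ∀ l < m, ∑ j ∈ range (m + 2), (g m r j).coeff l * w j = 0
  ind : ∀ a ≤ m + 1, ∀ b ≤ m + 1, a ≠ b →
    AlgebraicIndependent k (Sum.elim (fun j : Fin (m + 2) => r j) ![w a, w b])
  gen : ∀ a ≤ m + 1, ∀ b ≤ m + 1, a ≠ b →
    IntermediateField.adjoin k (Set.range (Sum.elim (fun j : Fin (m + 2) => r j) ![w a, w b])) = ⊤

/-- specialisation of the node `i` to `0` -/
def S_SPEC : Prop :=
  ∀ (k F : Type) [Field k] [CharZero k] [Field F] [Algebra k F] (m : ℕ) (r w : ℕ → F), 3 ≤ m →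
    GenPt k F m r w → ∀ i : Fin (m + 2),
      AlgebraicIndependent k (fun j : Fin (m + 2) => w j) ∧
      SpecAt k F (Fin (m + 2)) (fun j => w j) i

/-- the field of weights is algebraically closed in the field of the generic point -/
def S_CLO : Prop :=
  ∀ (k F : Type) [Field k] [CharZero k] [Field F] [Algebra k F] (m : ℕ) (r w : ℕ → F), 3 ≤ m →
    GenPt k F m r w → ∀ x : F,
      IsAlgebraic (IntermediateField.adjoin k (Set.range fun j : Fin (m + 2) => w j)) x →
      x ∈ IntermediateField.adjoin k (Set.range fun j : Fin (m + 2) => w j)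

/-- moving the base point along the line: contact system -/
def S_LINE : Prop :=
  ∀ (Ω : Type) [Field Ω] (m : ℕ) (r t r' t' : ℕ → Ω) (c : Ω), (∀ j, m + 2 ≤ j → r j = 0) →
    (∀ j, 1 + r j * c ≠ 0) → (∀ j, r' j = r j / (1 + r j * c)) →
    (∀ j, t' j = t j * ((1 + r j * c) ^ m * (1 + r (j + 1) * c))) →
    (∀ l < m, ∑ j ∈ range (m + 2), (g m r j).coeff l * t j = 0) →
    (∀ l < m, ∑ j ∈ range (m + 2), (g m r' j).coeff l * t' j = 0) ∧
    ∑ j ∈ range (m + 2), t' j
      = ∑ j ∈ range (m + 2), t j + c * ∑ j ∈ range (m + 2), (g m r j).coeff m * t j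

/-! ### F. The hypersurface -/

/-- `x_0^(d-1) x_1 + x_1^(d-1) x_2 + ... + x_d^(d-1) x_(d+1) + R` -/
noncomputable def chain (k : Type) [Field k] (d n : ℕ) (R : MvPolynomial (Fin (n + 1)) k) :
    MvPolynomial (Fin (n + 1)) k :=
  ∑ i ∈ range (d + 1), MvPolynomial.X (Fin.ofNat (n + 1) i) ^ (d - 1) *
    MvPolynomial.X (Fin.ofNat (n + 1) (i + 1)) + R

/-- `y` is a generic zero of `F` -/
def IsGenericZero {k Q σ : Type} [Field k] [Field Q] [Algebra k Q] (F : MvPolynomial σ k)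
    (y : σ → Q) : Prop :=
  ∀ G : MvPolynomial σ k, MvPolynomial.aeval y G = 0 ↔ F ∣ G

/-- the field of the fractions of degree zero in `k(y)` -/
def ratioField (k : Type) {Q σ : Type} [Field k] [Field Q] [Algebra k Q] (y : σ → Q) :
    IntermediateField k Q :=
  IntermediateField.adjoin k {x | ∃ i j, x = y i / y j}

def S_IRR : Prop :=
  ∀ (k : Type) [Field k] (d n : ℕ) (R : MvPolynomial (Fin (n + 1)) k), 3 ≤ d → d + 1 ≤ n →
    (∀ i ∈ R.vars, d + 1 ≤ (i : ℕ)) → Irreducible (chain k d n R)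

/-- nonsingular, if `R` and its restriction to `x_(d+1) = 0` are nonsingular -/
def S_SM : Prop :=
  ∀ (k L : Type) [Field k] [CharZero k] [Field L] [Algebra k L] (d n : ℕ)
    (R : MvPolynomial (Fin (n + 1)) k), 3 ≤ d → d + 1 ≤ n → R.IsHomogeneous d →
    (∀ i ∈ R.vars, d + 1 ≤ (i : ℕ)) →
    (∀ x : Fin (n + 1) → L, (∀ i : Fin (n + 1), d + 1 ≤ (i : ℕ) →
      MvPolynomial.aeval x (MvPolynomial.pderiv i R) = 0) →
      ∀ i : Fin (n + 1), d + 1 ≤ (i : ℕ) → x i = 0) →
    (∀ x : Fin (n + 1) → L, x (Fin.ofNat (n + 1) (d + 1)) = 0 →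
      (∀ i : Fin (n + 1), d + 2 ≤ (i : ℕ) →
        MvPolynomial.aeval x (MvPolynomial.pderiv i R) = 0) →
      ∀ i : Fin (n + 1), d + 2 ≤ (i : ℕ) → x i = 0) →
    ∀ x : Fin (n + 1) → L,
      (∀ i, MvPolynomial.aeval x (MvPolynomial.pderiv i (chain k d n R)) = 0) → x = 0

def S_KER : Prop :=
  ∀ (k Q σ : Type) [Field k] [Field Q] [Algebra k Q] [Fintype σ] (F : MvPolynomial σ k)
    (y : σ → Q), Irreducible F → MvPolynomial.aeval y F = 0 →
    (∃ (κ : Type) (_ : Fintype κ) (t : κ → Q), Fintype.card κ + 1 = Fintype.card σ ∧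
      AlgebraicIndependent k t ∧
      ∀ i, IsAlgebraic (IntermediateField.adjoin k (Set.range y)) (t i)) →
    IsGenericZero F y

/-- the function fields of two generic zeros are isomorphic -/
def S_ISO : Prop :=
  ∀ (k Q Q' σ : Type) [Field k] [Field Q] [Algebra k Q] [Field Q'] [Algebra k Q']
    (F : MvPolynomial σ k) (y : σ → Q) (y' : σ → Q'), IsGenericZero F y → IsGenericZero F y' →
    Nonempty (ratioField k y ≃ₐ[k] ratioField k y')

/-- a homogeneous coordinate is transcendental over the fractions of degree zero -/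
def S_RAT : Prop :=
  ∀ (k Q σ : Type) [Field k] [Field Q] [Algebra k Q] [Finite σ] (d : ℕ) (F : MvPolynomial σ k)
    (y : σ → Q), F.IsHomogeneous d → IsGenericZero F y → ∀ i, y i ≠ 0 →
    Transcendental (ratioField k y) (y i)

end W560.HP
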