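import Mathlib
import Pool.Agent.W560.HP.Stm
import Pool.Agent.W563.HP.Sm

/-! The nonsingular members with diagonal `R`. -/

set_option autoImplicit false

namespace W560.HP

open Finset

/-- the diagonal form `c_(d+1) x_(d+1)^d + ... + c_n x_n^d` -/
noncomputable def diag (k : Type) [Field k] (d n : ℕ) (c : Fin (n + 1) → k) :
    MvPolynomial (Fin (n + 1)) k :=
  ∑ i : Fin (n + 1), if d + 1 ≤ (i : ℕ) then MvPolynomial.C (c i) * MvPolynomial.X i ^ d else 0

variable {k : Type} [Field k] {d n : ℕ} {c : Fin (n + 1) → k}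

theorem diag_homogeneous : (diag k d n c).IsHomogeneous d := by
  unfold diag
  refine MvPolynomial.IsHomogeneous.sum _ _ _ fun i _ => ?_
  split_ifs
  · have h1 := (MvPolynomial.isHomogeneous_C (σ := Fin (n + 1)) (c i)).mul
      (MvPolynomial.isHomogeneous_X_pow (R := k) i d)
    rwa [zero_add] at h1
  · exact MvPolynomial.isHomogeneous_zero _ _ _

theorem diag_vars : ∀ i ∈ (diag k d n c).vars, d + 1 ≤ (i : ℕ) := by
  classical
  intro i hi
  unfold diag at hi
  have h1 := MvPolynomial.vars_sum_subset _ _ hi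
  rw [Finset.mem_biUnion] at h1
  obtain ⟨j, _, hj⟩ := h1
  split_ifs at hj with h2
  · have h3 := MvPolynomial.vars_mul _ _ hj
    rw [MvPolynomial.vars_C, Finset.empty_union] at h3
    have h4 := MvPolynomial.vars_pow _ _ h3
    rw [MvPolynomial.vars_X, Finset.mem_singleton] at h4
    rw [h4]; exact h2
  · rw [MvPolynomial.vars_0] at hj
    exact absurd hj (Finset.notMem_empty _)

theorem diag_pderiv (i : Fin (n + 1)) : MvPolynomial.pderiv i (diag k d n c)
    = if d + 1 ≤ (i : ℕ) then MvPolynomial.C (c i * d) * MvPolynomial.X i ^ (d - 1) else 0 := by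
  classical
  unfold diag
  rw [map_sum, Finset.sum_eq_single i]
  · split_ifs with h
    · rw [MvPolynomial.pderiv_C_mul, MvPolynomial.pderiv_pow, MvPolynomial.pderiv_X_self, mul_one,
        MvPolynomial.C_mul, map_natCast, mul_assoc]
    · exact map_zero _
  · intro j _ hj
    split_ifs
    · rw [MvPolynomial.pderiv_C_mul, MvPolynomial.pderiv_pow, MvPolynomial.pderiv_X_of_ne hj,
        mul_zero, mul_zero]
    · exact map_zero _
  · intro h; exact absurd (Finset.mem_univ _) h

theorem diag_ne_zero (hn : d + 1 ≤ n) (hk : (d : k) ≠ 0) (hc : ∀ i, c i ≠ 0) :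
    diag k d n c ≠ 0 := by
  intro h
  have h1 := diag_pderiv (k := k) (d := d) (n := n) (c := c) (Fin.last n)
  rw [h, map_zero, if_pos (by simpa using hn)] at h1
  have h2 := congrArg (MvPolynomial.eval (fun _ => (1 : k))) h1
  simp only [map_zero, map_mul, MvPolynomial.eval_C, map_pow, MvPolynomial.eval_X, one_pow,
    mul_one, map_natCast] at h2
  exact mul_ne_zero (hc _) hk h2.symm

theorem diag_smooth [CharZero k] (hd : 3 ≤ d) (hn : d + 1 ≤ n) (hc : ∀ i, c i ≠ 0) (L : Type)
    [Field L] [Algebra k L] (x : Fin (n + 1) → L)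
    (hx : ∀ i, MvPolynomial.aeval x (MvPolynomial.pderiv i (chain k d n (diag k d n c))) = 0) :
    x = 0 := by
  have hd0 : (d : k) ≠ 0 := by exact_mod_cast (by omega : d ≠ 0)
  have key : ∀ x : Fin (n + 1) → L, ∀ i : Fin (n + 1), d + 1 ≤ (i : ℕ) →
      MvPolynomial.aeval x (MvPolynomial.pderiv i (diag k d n c)) = 0 → x i = 0 := by
    intro x i hi h
    rw [diag_pderiv, if_pos hi, map_mul, MvPolynomial.aeval_C, map_pow, MvPolynomial.aeval_X] at h
    rcases mul_eq_zero.mp h with h1 | h1
    · exfalso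
      rw [map_eq_zero] at h1
      exact mul_ne_zero (hc i) hd0 h1
    · exact pow_eq_zero_iff (by omega) |>.mp h1
  exact Pool.Agent.W563.HP.Sm.main k L d n (diag k d n c) hd hn diag_homogeneous diag_vars
    (fun x hx i hi => key x i hi (hx i hi)) (fun x _ hx i hi => key x i (by omega) (hx i hi)) x hx

end W560.HP
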