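import Mathlib
import Pool.Agent.W560.HP.Stm

/-! Project HP (helper560): the Hilbert property of a scheme. Statement (NOT a result). -/

set_option autoImplicit false

namespace W560.HP

open AlgebraicGeometry CategoryTheory

/-- the embedding of `k` into the function field of an integral `k`-scheme -/
noncomputable def toFF (k : Type) [Field k] (X : Scheme.{0}) [IsIntegral X]
    (f : X ⟶ Spec (CommRingCat.of k)) : k →+* X.functionField :=
  ((X.presheaf.germ ⊤ (genericPoint X) trivial).hom.comp f.appTop.hom).comp
    (Scheme.ΓSpecIso (CommRingCat.of k)).inv.hom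

/-- The Hilbert property of the `k`-scheme `X` (structure morphism `f`): for every finite family of
covers `π i : Y i ⟶ X` (finite surjective, `Y i` integral) of degree `> 1` (the extension of
function fields is not trivial) the `k`-points of `X` which are not images of `k`-points of the
`Y i` are dense in `X`. -/
def HilbertProperty (k : Type) [Field k] (X : Scheme.{0}) (f : X ⟶ Spec (CommRingCat.of k)) :
    Prop :=
  ∀ (q : ℕ) (Y : Fin q → Scheme.{0}) (π : ∀ i, Y i ⟶ X) (_ : ∀ i, IsIntegral (Y i)),
    (∀ i, IsFinite (π i)) → (∀ i, Surjective (π i)) →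
    (∀ i, ¬ Function.Surjective ((π i).stalkMap (genericPoint (Y i))).hom) →
    Dense {x : X | ∃ s : Spec (CommRingCat.of k) ⟶ X, s ≫ f = 𝟙 _ ∧ x ∈ Set.range s.base ∧
      ∀ i (t : Spec (CommRingCat.of k) ⟶ Y i), t ≫ π i ≠ s}

def S_SCH : Prop :=
  ∀ (k : Type) [Field k] (X : Scheme.{0}) [IsIntegral X] (f : X ⟶ Spec (CommRingCat.of k))
    [LocallyOfFiniteType f] (K : Type) [Field K] [Algebra k K] (e : X.functionField ≃+* K),
    (∀ a : k, e (toFF k X f a) = algebraMap k K a) → HPF k K → HilbertProperty k X f

end W560.HP
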