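import Mathlib
import Pool.Agent.W560.HP.Stm

/-! Project HP (helper560): one more statement (NOT a result). -/

set_option autoImplicit false

namespace W560.HP

open Finset Polynomial

/-- at generic nodes the first `m + 1` rows and one coordinate determine the weights -/
def S_TOP : Prop :=
  ∀ (k Ω : Type) [Field k] [CharZero k] [Field Ω] [Algebra k Ω] (m : ℕ) (r : ℕ → Ω), 3 ≤ m →
    AlgebraicIndependent k (fun j : Fin (m + 2) => r j) → (∀ j, m + 2 ≤ j → r j = 0) →
    ∀ a ≤ m + 1, ∀ t : ℕ → Ω,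
    (∀ l ≤ m, ∑ j ∈ range (m + 2), (g m r j).coeff l * t j = 0) → t a = 0 →
    ∀ j ≤ m + 1, t j = 0

end W560.HP
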