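import Mathlib
import Pool.Agent.W560.HP.Stm
import Pool.Agent.W560.HP.Stm3

/-! The generic point: tools. -/

set_option autoImplicit false

namespace W560.HP

open Finset

section tools

variable {k Ω : Type} [Field k] [Field Ω] [Algebra k Ω]

theorem scale_indep {ι : Type} {x : ι → Ω} (hx : AlgebraicIndependent k x) (c : ι → k)
    (hc : ∀ i, c i ≠ 0) : AlgebraicIndependent k (fun i => algebraMap k Ω (c i) * x i) := by
  set f : MvPolynomial ι k →ₐ[k] MvPolynomial ι k :=
    MvPolynomial.aeval (fun i => MvPolynomial.C (c i) * MvPolynomial.X i) with hf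
  set f' : MvPolynomial ι k →ₐ[k] MvPolynomial ι k :=
    MvPolynomial.aeval (fun i => MvPolynomial.C (c i)⁻¹ * MvPolynomial.X i) with hf'
  have hff : f'.comp f = AlgHom.id k (MvPolynomial ι k) := by
    apply MvPolynomial.algHom_ext
    intro j
    rw [AlgHom.comp_apply, AlgHom.id_apply, hf, MvPolynomial.aeval_X, map_mul, hf',
      MvPolynomial.aeval_X]
    have : (MvPolynomial.aeval (fun i => MvPolynomial.C (c i)⁻¹ * MvPolynomial.X i) :
        MvPolynomial ι k →ₐ[k] MvPolynomial ι k) (MvPolynomial.C (c j)) = MvPolynomial.C (c j) :=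
      MvPolynomial.aeval_C _ _
    rw [this, ← mul_assoc, ← MvPolynomial.C_mul, mul_inv_cancel₀ (hc j), MvPolynomial.C_1, one_mul]
  have hinj : Function.Injective f := by
    intro a b hab
    have := congrArg f' hab
    have h1 := DFunLike.congr_fun hff a
    have h2 := DFunLike.congr_fun hff b
    simp only [AlgHom.comp_apply, AlgHom.id_apply] at h1 h2
    rw [← h1, ← h2, this]
  have h1 : (MvPolynomial.aeval (fun i => algebraMap k Ω (c i) * x i) : MvPolynomial ι k →ₐ[k] Ω)
      = (MvPolynomial.aeval x).comp f := by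
    apply MvPolynomial.algHom_ext
    intro j
    rw [AlgHom.comp_apply, hf, MvPolynomial.aeval_X, MvPolynomial.aeval_X, map_mul,
      MvPolynomial.aeval_X]
    congr 1
    exact (MvPolynomial.aeval_C _ _).symm
  rw [AlgebraicIndependent, h1]
  exact Function.Injective.comp (g := MvPolynomial.aeval x) hx hinj

open scoped IntermediateField.algebraAdjoinAdjoin in
theorem basis_of_span {ι κ : Type} [Finite ι] [Finite κ] {t : ι → Ω}
    (ht : IsTranscendenceBasis k t) (v : κ → Ω) (hc : Nat.card κ = Nat.card ι)
    (h : ∀ x : Ω, IsAlgebraic (IntermediateField.adjoin k (Set.range v)) x) :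
    IsTranscendenceBasis k v := by
  have h1 : Algebra.IsAlgebraic (IntermediateField.adjoin k (Set.range v)) Ω := ⟨h⟩
  have h2 : Algebra.IsAlgebraic (Algebra.adjoin k (Set.range v)) Ω :=
    (IsFractionRing.comap_isAlgebraic_iff (K := IntermediateField.adjoin k (Set.range v))).mpr h1
  apply Algebra.IsAlgebraic.isTranscendenceBasis_of_lift_le_trdeg_of_finite k v
  have h3 := ht.lift_cardinalMk_eq_trdeg
  rw [← h3]
  have h4 : Cardinal.mk κ = Cardinal.mk ι := by
    have := Fintype.ofFinite κ
    have := Fintype.ofFinite ι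
    rw [Cardinal.mk_fintype, Cardinal.mk_fintype]
    rw [Nat.card_eq_fintype_card, Nat.card_eq_fintype_card] at hc
    rw [hc]
  rw [h4]

/-- algebraic over a subfield of generators -/
theorem alg_of_gen (L : IntermediateField k Ω) (S : Set Ω)
    (hS : IntermediateField.adjoin k S = ⊤) (h : ∀ x ∈ S, IsAlgebraic L x) (x : Ω) :
    IsAlgebraic L x := by
  set M1 : IntermediateField L Ω := algebraicClosure L Ω with hM1
  have hle : IntermediateField.adjoin k S ≤ M1.restrictScalars k := by
    rw [IntermediateField.adjoin_le_iff]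
    intro a ha
    exact mem_algebraicClosure_iff.mpr (h a ha)
  have h1 : x ∈ M1.restrictScalars k := hle (by rw [hS]; trivial)
  exact mem_algebraicClosure_iff.mp h1

end tools

end W560.HP
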