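import Mathlib
import Pool.Agent.W560.HP.Stm3

/-! Project HP (helper560): the parameter space. Statements (NOT results). -/

set_option autoImplicit false

namespace W560.HP

open Finset Polynomial

/-- existence of weights with two prescribed values -/
def S_SOL1 : Prop :=
  ∀ (Ω : Type) [Field Ω] (m : ℕ) (r : ℕ → Ω) (a b : ℕ), a ≤ m + 1 → b ≤ m + 1 → a ≠ b →
    (∀ t : ℕ → Ω, (∀ l < m, ∑ j ∈ range (m + 2), (g m r j).coeff l * t j = 0) → t a = 0 →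
      t b = 0 → ∀ j ≤ m + 1, t j = 0) →
    ∀ α β : Ω, ∃ w : ℕ → Ω, (∀ l < m, ∑ j ∈ range (m + 2), (g m r j).coeff l * w j = 0) ∧
      w a = α ∧ w b = β ∧ ∀ j, m + 2 ≤ j → w j = 0

/-- the weights lie in the field of the nodes and two of the weights -/
def S_SOL2 : Prop :=
  ∀ (k Ω : Type) [Field k] [Field Ω] [Algebra k Ω] (L : IntermediateField k Ω) (m : ℕ)
    (r : ℕ → Ω) (a b : ℕ), a ≤ m + 1 → b ≤ m + 1 → a ≠ b → (∀ j, r j ∈ L) →
    (∀ t : ℕ → Ω, (∀ l < m, ∑ j ∈ range (m + 2), (g m r j).coeff l * t j = 0) → t a = 0 →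
      t b = 0 → ∀ j ≤ m + 1, t j = 0) →
    ∀ w : ℕ → Ω, (∀ l < m, ∑ j ∈ range (m + 2), (g m r j).coeff l * w j = 0) →
      w a ∈ L → w b ∈ L → ∀ j ≤ m + 1, w j ∈ L

/-- the parameter space: nodes `r`, weights `w`, coordinates `u` with `u j ^ m * u (j+1) = w j`,
`T = (x, z_1, ..., z_s)` with `x = u (m + 2)` -/
structure ParamPt (k Ω : Type) [Field k] [Field Ω] [Algebra k Ω] (m s : ℕ) (r w u : ℕ → Ω)
    (T : Fin (s + 1) → Ω) : Prop where
  r0 : ∀ j, m + 2 ≤ j → r j = 0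
  con : ∀ l < m, ∑ j ∈ range (m + 2), (g m r j).coeff l * w j = 0
  wne : ∀ j ≤ m + 1, w j ≠ 0
  une : ∀ j, u j ≠ 0
  uw : ∀ j ≤ m + 1, u j ^ m * u (j + 1) = w j
  T0 : T 0 = u (m + 2)
  bne : ∑ j ∈ range (m + 2), (g m r j).coeff m * w j ≠ 0
  rne : ∀ j ≤ m + 1, r j ≠ 0
  indr : AlgebraicIndependent k (fun j : Fin (m + 2) => r j)
  bas : IsTranscendenceBasis k (Sum.elim (fun j : Fin (m + 2) => r j)
    (Sum.elim ![w 0, w (m + 1)] T))
  gen : IntermediateField.adjoin k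
    (Set.range r ∪ {w 0, w (m + 1), u 0} ∪ Set.range (fun i : Fin s => T i.succ)) = ⊤
  pure : ∃ (ι : Type) (_ : Finite ι) (t : ι → Ω), AlgebraicIndependent k t ∧
    IntermediateField.adjoin k (Set.range t) = ⊤

def S_P1 : Prop :=
  ∀ (k : Type) [Field k] [CharZero k] (m s : ℕ), 3 ≤ m →
    ∃ (Ω : Type) (_ : Field Ω) (_ : Algebra k Ω) (r w u : ℕ → Ω) (T : Fin (s + 1) → Ω),
      ParamPt k Ω m s r w u T

end W560.HP
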