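import Mathlib
import Pool.Agent.W560.HP.Stm4
import Pool.Agent.W560.HP.Gp1

/-! The generic point: moving the base point. -/

set_option autoImplicit false
set_option linter.unusedSectionVars false

namespace W560.HP

open Finset

section

variable {k Ω : Type} [Field k] [CharZero k] [Field Ω] [Algebra k Ω] {m s : ℕ} {r w u : ℕ → Ω}
  {T : Fin (s + 1) → Ω}

/-- the field of the nodes and the weights -/
def LL (k : Type) {Ω : Type} [Field k] [Field Ω] [Algebra k Ω] (m : ℕ) (r w : ℕ → Ω) :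
    IntermediateField k Ω :=
  IntermediateField.adjoin k (Set.range (Sum.elim (fun j : Fin (m + 2) => r j) ![w 0, w (m + 1)]))

theorem T_indep (H : ParamPt k Ω m s r w u T) : AlgebraicIndependent (LL k m r w) T := by
  have h1 := H.bas.1
  let e : Fin (s + 1) ⊕ (Fin (m + 2) ⊕ Fin 2) → Fin (m + 2) ⊕ (Fin 2 ⊕ Fin (s + 1)) :=
    Sum.elim (fun i => Sum.inr (Sum.inr i)) (Sum.elim (fun i => Sum.inl i)
      (fun i => Sum.inr (Sum.inl i)))
  have he : Function.Injective e := by
    rintro (a | a | a) (b | b | b) hab <;> simp [e] at hab <;> simp [hab]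
  have h2 := h1.comp e he
  have h3 : (Sum.elim (fun j : Fin (m + 2) => r j) (Sum.elim ![w 0, w (m + 1)] T)) ∘ e
      = Sum.elim T (Sum.elim (fun j : Fin (m + 2) => r j) ![w 0, w (m + 1)]) := by
    funext x
    rcases x with a | a | a <;> rfl
  rw [h3] at h2
  have h4 := (AlgebraicIndependent.sumElim_iff.mp h2).2
  exact IntermediateField.algebraicIndependent_adjoin_iff.mpr h4

theorem r_mem (H : ParamPt k Ω m s r w u T) (j : ℕ) : r j ∈ LL k m r w := by
  rcases Nat.lt_or_ge j (m + 2) with h1 | h1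
  · exact IntermediateField.subset_adjoin _ _ ⟨Sum.inl ⟨j, h1⟩, rfl⟩
  · rw [H.r0 j h1]; exact zero_mem _

theorem w_mem (hC : S_CHART) (hS : S_SOL2) (hm : 3 ≤ m) (H : ParamPt k Ω m s r w u T) :
    ∀ j ≤ m + 1, w j ∈ LL k m r w := by
  apply hS k Ω (LL k m r w) m r 0 (m + 1) (by omega) le_rfl (by omega) (r_mem H)
    (hC k Ω m r hm H.indr H.r0 0 (by omega) (m + 1) le_rfl (by omega)) w H.con
  · exact IntermediateField.subset_adjoin _ _ ⟨Sum.inr 0, rfl⟩
  · exact IntermediateField.subset_adjoin _ _ ⟨Sum.inr 1, rfl⟩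

theorem form_not_mem {L : IntermediateField k Ω} (hT : AlgebraicIndependent L T)
    {R : MvPolynomial (Fin (s + 1)) k} {D : ℕ} (hD : 1 ≤ D) (hR : R.IsHomogeneous D) (hR0 : R ≠ 0) :
    MvPolynomial.aeval T R ∉ L := by
  intro hx
  have h1 : MvPolynomial.aeval T (MvPolynomial.map (algebraMap k L) R
      - MvPolynomial.C ⟨MvPolynomial.aeval T R, hx⟩) = 0 := by
    rw [map_sub, MvPolynomial.aeval_C, MvPolynomial.aeval_map_algebraMap]
    exact sub_self _
  have h2 := (algebraicIndependent_iff.mp hT) _ h1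
  have h3 := sub_eq_zero.mp h2
  have h4 : (MvPolynomial.map (algebraMap k L) R) ≠ 0 := by
    intro h
    apply hR0
    apply MvPolynomial.map_injective (algebraMap k L) (algebraMap k L).injective
    rw [h, map_zero]
  have h5 : (MvPolynomial.map (algebraMap k L) R).IsHomogeneous D := hR.map _
  have h6 : (MvPolynomial.map (algebraMap k L) R).IsHomogeneous 0 := by
    rw [h3]; exact MvPolynomial.isHomogeneous_C _ _
  have := h5.inj_right h6 h4
  omega

/-- the slope -/
noncomputable def BB (m : ℕ) (r w : ℕ → Ω) : Ω := ∑ j ∈ range (m + 2), (g m r j).coeff m * w j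

/-- the parameter of the residual point -/
noncomputable def cc (m : ℕ) (r w : ℕ → Ω) (ρ : Ω) : Ω := -(∑ j ∈ range (m + 2), w j + ρ) / BB m r w

theorem g_coeff_mem (L : IntermediateField k Ω) (m : ℕ) (r : ℕ → Ω) (hr : ∀ j, r j ∈ L) (j l : ℕ) :
    (g m r j).coeff l ∈ L := by
  have h1 : g m r j = (g m (fun j => (⟨r j, hr j⟩ : L)) j).map (algebraMap L Ω) := by
    unfold g
    simp only [Polynomial.map_mul, Polynomial.map_pow, Polynomial.map_add, Polynomial.map_X,
      Polynomial.map_C]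
    rfl
  rw [h1, Polynomial.coeff_map]
  exact SetLike.coe_mem _

theorem one_add_ne (hC : S_CHART) (hS : S_SOL2) (hm : 3 ≤ m) (H : ParamPt k Ω m s r w u T)
    {R : MvPolynomial (Fin (s + 1)) k} {D : ℕ} (hD : 1 ≤ D) (hR : R.IsHomogeneous D) (hR0 : R ≠ 0)
    (j : ℕ) : 1 + r j * cc m r w (MvPolynomial.aeval T R) ≠ 0 := by
  intro h0
  have hB : BB m r w ≠ 0 := H.bne
  have hr0 : r j ≠ 0 := by
    intro h
    rw [h, zero_mul, add_zero] at h0
    exact one_ne_zero h0
  apply form_not_mem (T_indep H) hD hR hR0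
  have hBm : BB m r w ∈ LL k m r w := by
    unfold BB
    refine sum_mem fun i hi => ?_
    have hi' := Finset.mem_range.mp hi
    exact mul_mem (g_coeff_mem _ m r (r_mem H) i m) (w_mem hC hS hm H i (by omega))
  have hW : ∑ j ∈ range (m + 2), w j ∈ LL k m r w := by
    refine sum_mem fun i hi => ?_
    have hi' := Finset.mem_range.mp hi
    exact w_mem hC hS hm H i (by omega)
  have h1 : MvPolynomial.aeval T R = BB m r w / r j - ∑ j ∈ range (m + 2), w j := by
    unfold cc at h0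
    field_simp at h0 ⊢
    linear_combination -h0
  rw [h1]
  exact sub_mem (div_mem hBm (r_mem H j)) hW

end

/-- the moved data -/
noncomputable def rr {Ω : Type} [Field Ω] (c : Ω) (r : ℕ → Ω) (j : ℕ) : Ω := r j / (1 + r j * c)

noncomputable def ww {Ω : Type} [Field Ω] (m : ℕ) (c : Ω) (r w : ℕ → Ω) (j : ℕ) : Ω :=
  w j * ((1 + r j * c) ^ m * (1 + r (j + 1) * c))

noncomputable def yy {Ω : Type} [Field Ω] (c : Ω) (r u : ℕ → Ω) (j : ℕ) : Ω := u j * (1 + r j * c)

section

variable {Ω : Type} [Field Ω] {m : ℕ} {r w u : ℕ → Ω} {c : Ω}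

theorem yy_mul (h : ∀ j ≤ m + 1, u j ^ m * u (j + 1) = w j) :
    ∀ j ≤ m + 1, yy c r u j ^ m * yy c r u (j + 1) = ww m c r w j := by
  intro j hj
  unfold yy ww
  rw [← h j hj, mul_pow]
  ring

theorem rr_back (h : ∀ j, 1 + r j * c ≠ 0) (j : ℕ) :
    1 + rr c r j * (-c) = 1 / (1 + r j * c) := by
  unfold rr
  have := h j
  field_simp
  ring

theorem rr_rr (h : ∀ j, 1 + r j * c ≠ 0) (j : ℕ) : r j = rr c r j / (1 + rr c r j * (-c)) := by
  rw [rr_back h]
  unfold rr
  have := h j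
  field_simp

theorem yy_back (h : ∀ j, 1 + r j * c ≠ 0) (j : ℕ) : u j = yy c r u j * (1 + rr c r j * (-c)) := by
  rw [rr_back h]
  unfold yy
  have := h j
  field_simp

theorem ww_back (h : ∀ j, 1 + r j * c ≠ 0) (j : ℕ) :
    w j = ww m c r w j * ((1 + rr c r j * (-c)) ^ m * (1 + rr c r (j + 1) * (-c))) := by
  rw [rr_back h, rr_back h, one_div, one_div, inv_pow]
  unfold ww
  have h1 := pow_ne_zero m (h j)
  have h2 := h (j + 1)
  have h3 : (1 + r j * c) ^ m * (1 + r (j + 1) * c) * (((1 + r j * c) ^ m)⁻¹ *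
      (1 + r (j + 1) * c)⁻¹) = 1 := by
    rw [← mul_inv, mul_inv_cancel₀ (mul_ne_zero h1 h2)]
  rw [mul_assoc, h3, mul_one]

theorem rr_zero (h0 : ∀ j, m + 2 ≤ j → r j = 0) : ∀ j, m + 2 ≤ j → rr c r j = 0 := by
  intro j hj
  unfold rr
  rw [h0 j hj, zero_div]

/-- uniqueness is preserved when the base point is moved -/
theorem chart_move (hL : S_LINE) (h0 : ∀ j, m + 2 ≤ j → r j = 0) (h : ∀ j, 1 + r j * c ≠ 0)
    {a b : ℕ} (hu : ∀ t : ℕ → Ω, (∀ l < m, ∑ j ∈ range (m + 2), (g m r j).coeff l * t j = 0) →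
      t a = 0 → t b = 0 → ∀ j ≤ m + 1, t j = 0)
    (t : ℕ → Ω) (ht : ∀ l < m, ∑ j ∈ range (m + 2), (g m (rr c r) j).coeff l * t j = 0)
    (ha : t a = 0) (hb : t b = 0) : ∀ j ≤ m + 1, t j = 0 := by
  have h1 : ∀ j, 1 + rr c r j * (-c) ≠ 0 := by
    intro j
    rw [rr_back h]
    exact one_div_ne_zero (h j)
  have h2 := (hL Ω m (rr c r) t r
    (fun j => t j * ((1 + rr c r j * (-c)) ^ m * (1 + rr c r (j + 1) * (-c)))) (-c)
    (rr_zero h0) h1 (rr_rr h) (fun j => rfl) ht).1
  intro j hj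
  have h3 := hu _ h2 (by simp only [ha, zero_mul]) (by simp only [hb, zero_mul]) j hj
  exact (mul_eq_zero.mp h3).resolve_right (mul_ne_zero (pow_ne_zero _ (h1 j)) (h1 (j + 1)))

end

end W560.HP
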