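import Mathlib
import Pool.Agent.W560.HP.Gp2

/-! The generic point: counting. -/

set_option autoImplicit false
set_option linter.unusedSectionVars false

namespace W560.HP

open Finset

section alg

variable {k Ω : Type} [Field k] [Field Ω] [Algebra k Ω]

theorem alg_mono {L L' : IntermediateField k Ω} (h : L ≤ L') {x : Ω} (hx : IsAlgebraic L x) :
    IsAlgebraic L' x := by
  let _ : Algebra L L' := (IntermediateField.inclusion h).toRingHom.toAlgebra
  have : IsScalarTower L L' Ω := IsScalarTower.of_algebraMap_eq fun c => rfl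
  exact hx.extendScalars (algebraMap L L').injective

theorem alg_trans {L M : IntermediateField k Ω} (h : ∀ x ∈ M, IsAlgebraic L x) {x : Ω}
    (hx : IsAlgebraic M x) : IsAlgebraic L x := by
  set M1 : IntermediateField L Ω := algebraicClosure L Ω with hM1
  have hle : M ≤ M1.restrictScalars k := fun a ha => mem_algebraicClosure_iff.mpr (h a ha)
  let _ : Algebra M M1 := (IntermediateField.inclusion hle).toRingHom.toAlgebra
  have : IsScalarTower M M1 Ω := IsScalarTower.of_algebraMap_eq fun c => rfl
  have h2 : IsAlgebraic M1 x := hx.extendScalars (algebraMap M M1).injective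
  exact h2.restrictScalars L

theorem alg_of_adjoin {L : IntermediateField k Ω} {S : Set Ω} (h : ∀ x ∈ S, IsAlgebraic L x) :
    ∀ x ∈ IntermediateField.adjoin k S, IsAlgebraic L x := by
  have hle : IntermediateField.adjoin k S ≤ (algebraicClosure L Ω).restrictScalars k := by
    rw [IntermediateField.adjoin_le_iff]
    intro a ha
    exact mem_algebraicClosure_iff.mpr (h a ha)
  intro x hx
  exact mem_algebraicClosure_iff.mp (hle hx)

theorem alg_mem {L : IntermediateField k Ω} {x : Ω} (h : x ∈ L) : IsAlgebraic L x :=
  isAlgebraic_algebraMap (⟨x, h⟩ : L)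

/-- going down along the chain -/
theorem chain_alg {F : Type} [Field F] [Algebra F Ω] {m M : ℕ} (hm : 1 ≤ m) {u w : ℕ → Ω}
    (hw : ∀ j ≤ M, IsAlgebraic F (w j)) (hu : ∀ j, u j ≠ 0)
    (h : ∀ j ≤ M, u j ^ m * u (j + 1) = w j) (hl : IsAlgebraic F (u (M + 1))) :
    ∀ j ≤ M + 1, IsAlgebraic F (u j) := by
  intro j hj
  induction hj using Nat.decreasingInduction with
  | self => exact hl
  | of_succ i hi ih =>
    have h1 : u i ^ m = w i * (u (i + 1))⁻¹ := by
      rw [← h i (by omega), mul_assoc, mul_inv_cancel₀ (hu _), mul_one]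
    have h2 : IsAlgebraic F (u i ^ m) := by
      rw [h1]; exact (hw i (by omega)).mul ih.inv
    exact h2.of_pow (by omega)

end alg

end W560.HP
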