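import Mathlib
import Pool.Agent.W560.HP.Gp3

/-! The generic point: the moved data. -/

set_option autoImplicit false
set_option linter.unusedSectionVars false

namespace W560.HP

open Finset

/-- the facts about the moved point which are used later -/
structure Mv (k Ω : Type) [Field k] [Field Ω] [Algebra k Ω] (m s : ℕ) (r w y : ℕ → Ω)
    (T : Fin (s + 1) → Ω) (R : MvPolynomial (Fin (s + 1)) k) (c : Ω) : Prop where
  r0 : ∀ j, m + 2 ≤ j → r j = 0
  con : ∀ l < m, ∑ j ∈ range (m + 2), (g m r j).coeff l * w j = 0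
  uni : ∀ a ≤ m + 1, ∀ b ≤ m + 1, a ≠ b → ∀ t : ℕ → Ω,
    (∀ l < m, ∑ j ∈ range (m + 2), (g m r j).coeff l * t j = 0) → t a = 0 → t b = 0 →
    ∀ j ≤ m + 1, t j = 0
  yne : ∀ j, y j ≠ 0
  yw : ∀ j ≤ m + 1, y j ^ m * y (j + 1) = w j
  T0 : T 0 = y (m + 2)
  sum : ∑ j ∈ range (m + 2), w j + MvPolynomial.aeval T R = 0
  nind : ¬ AlgebraicIndependent (IntermediateField.adjoin k
    (Set.range fun j : Fin (m + 2) => w j)) T
  basis : ∃ β : Fin (m + 2 + 2 + s + 1) → Ω, AlgebraicIndependent k β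
  span : ∀ L : IntermediateField k Ω, (∀ j, r j ∈ L) → (∀ j ≤ m + 1, w j ∈ L) →
    (∀ i, T i ∈ L) → c ∈ L → ∀ x : Ω, IsAlgebraic L x
  top : ∀ L : IntermediateField k Ω, (∀ j, r j ∈ L) → (∀ j ≤ m + 2, y j ∈ L) →
    (∀ i, T i ∈ L) → c ∈ L → L = ⊤

theorem moved (hC : S_CHART) (hS : S_SOL2) (hL : S_LINE) {k Ω : Type} [Field k] [CharZero k]
    [Field Ω] [Algebra k Ω] {m s : ℕ} {r w u : ℕ → Ω} {T : Fin (s + 1) → Ω} (hm : 3 ≤ m)
    (H : ParamPt k Ω m s r w u T) {R : MvPolynomial (Fin (s + 1)) k} {D : ℕ} (hD : 1 ≤ D)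
    (hR : R.IsHomogeneous D) (hR0 : R ≠ 0) :
    ∃ (r' w' y : ℕ → Ω) (c : Ω), Mv k Ω m s r' w' y T R c := by
  set c : Ω := cc m r w (MvPolynomial.aeval T R) with hc
  have h1 : ∀ j, 1 + r j * c ≠ 0 := one_add_ne hC hS hm H hD hR hR0
  have hB : BB m r w ≠ 0 := H.bne
  have hl := hL Ω m r w (rr c r) (ww m c r w) c H.r0 h1 (fun j => rfl) (fun j => rfl) H.con
  have hsum : ∑ j ∈ range (m + 2), ww m c r w j + MvPolynomial.aeval T R = 0 := by
    rw [hl.2]
    change _ + c * BB m r w + _ = 0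
    rw [hc]
    unfold cc
    rw [div_mul_cancel₀ _ hB]
    ring
  have hr1 : r (m + 2) = 0 := H.r0 _ le_rfl
  have hym : yy c r u (m + 2) = u (m + 2) := by
    unfold yy; rw [hr1, zero_mul, add_zero, mul_one]
  refine ⟨rr c r, ww m c r w, yy c r u, c, ?_⟩
  constructor
  · exact rr_zero H.r0
  · exact hl.1
  · intro a ha b hb hab t ht h2 h3
    exact chart_move hL H.r0 h1 (hC k Ω m r hm H.indr H.r0 a ha b hb hab) t ht h2 h3
  · intro j; exact mul_ne_zero (H.une j) (h1 j)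
  · exact yy_mul H.uw
  · rw [hym, H.T0]
  · exact hsum
  · intro hi
    apply form_not_mem hi hD hR hR0
    have h2 : MvPolynomial.aeval T R = - ∑ j ∈ range (m + 2), ww m c r w j := by
      linear_combination hsum
    rw [h2]
    refine neg_mem (sum_mem fun j hj => ?_)
    exact IntermediateField.subset_adjoin _ _ ⟨⟨j, Finset.mem_range.mp hj⟩, rfl⟩
  · have h2 : Fintype.card (Fin (m + 2) ⊕ (Fin 2 ⊕ Fin (s + 1))) = m + 2 + 2 + s + 1 := by
      simp only [Fintype.card_sum, Fintype.card_fin]; omega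
    exact ⟨_, H.bas.1.comp (Fintype.equivFinOfCardEq h2).symm (Equiv.injective _)⟩
  · intro L hr hw hT hcL
    have hrL : ∀ j, r j ∈ L := by
      intro j
      rw [rr_rr h1 j]
      exact div_mem (hr j) (add_mem (one_mem _) (mul_mem (hr j) (neg_mem hcL)))
    have hwL : ∀ j ≤ m + 1, w j ∈ L := by
      intro j hj
      rw [ww_back (m := m) (w := w) h1 j]
      exact mul_mem (hw j hj) (mul_mem (pow_mem (add_mem (one_mem _) (mul_mem (hr j)
        (neg_mem hcL))) _) (add_mem (one_mem _) (mul_mem (hr (j + 1)) (neg_mem hcL))))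
    have hu : ∀ j ≤ m + 1 + 1, IsAlgebraic L (u j) :=
      chain_alg (by omega) (fun j hj => alg_mem (hwL j hj)) H.une H.uw (by
        rw [← H.T0]; exact alg_mem (hT 0))
    apply alg_of_gen L _ H.gen
    rintro x ((⟨j, rfl⟩ | hx) | ⟨i, rfl⟩)
    · exact alg_mem (hrL j)
    · rcases hx with rfl | rfl | rfl
      · exact alg_mem (hwL 0 (by omega))
      · exact alg_mem (hwL (m + 1) le_rfl)
      · exact hu 0 (by omega)
    · exact alg_mem (hT _)
  · intro L hr hy hT hcL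
    have hrL : ∀ j, r j ∈ L := by
      intro j
      rw [rr_rr h1 j]
      exact div_mem (hr j) (add_mem (one_mem _) (mul_mem (hr j) (neg_mem hcL)))
    have huL : ∀ j ≤ m + 2, u j ∈ L := by
      intro j hj
      rw [yy_back (u := u) h1 j]
      exact mul_mem (hy j hj) (add_mem (one_mem _) (mul_mem (hr j) (neg_mem hcL)))
    have hwL : ∀ j ≤ m + 1, w j ∈ L := by
      intro j hj
      rw [← H.uw j hj]
      exact mul_mem (pow_mem (huL j (by omega)) _) (huL (j + 1) (by omega))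
    rw [eq_top_iff, ← H.gen, IntermediateField.adjoin_le_iff]
    rintro x ((⟨j, rfl⟩ | hx) | ⟨i, rfl⟩)
    · exact hrL j
    · rcases hx with rfl | rfl | rfl
      · exact hwL 0 (by omega)
      · exact hwL (m + 1) le_rfl
      · exact huL 0 (by omega)
    · exact hT _

end W560.HP
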