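import Mathlib
import Pool.Agent.W560.HP.Gp4

/-! The generic point: the function field is algebraically closed in the parameter field. -/

set_option autoImplicit false
set_option linter.unusedSectionVars false

namespace W560.HP

open Finset

section

variable {k Ω : Type} [Field k] [CharZero k] [Field Ω] [Algebra k Ω] {m s : ℕ} {r w y : ℕ → Ω}
  {T : Fin (s + 1) → Ω} {R : MvPolynomial (Fin (s + 1)) k} {c : Ω}

/-- the field of the weights -/
def KK (k : Type) {Ω : Type} [Field k] [Field Ω] [Algebra k Ω] (m : ℕ) (w : ℕ → Ω) :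
    IntermediateField k Ω :=
  IntermediateField.adjoin k (Set.range fun j : Fin (m + 2) => w j)

theorem Mv.r_mem (H : Mv k Ω m s r w y T R c) (j : ℕ) : r j ∈ LL k m r w := by
  rcases Nat.lt_or_ge j (m + 2) with h1 | h1
  · exact IntermediateField.subset_adjoin _ _ ⟨Sum.inl ⟨j, h1⟩, rfl⟩
  · rw [H.r0 j h1]; exact zero_mem _

theorem Mv.adj_eq (hS : S_SOL2) (H : Mv k Ω m s r w y T R c) {a b : ℕ} (ha : a ≤ m + 1)
    (hb : b ≤ m + 1) (hab : a ≠ b) (L : IntermediateField k Ω) (hr : ∀ j, r j ∈ L)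
    (hwa : w a ∈ L) (hwb : w b ∈ L) : ∀ j ≤ m + 1, w j ∈ L :=
  hS k Ω L m r a b ha hb hab hr (H.uni a ha b hb hab) w H.con hwa hwb

theorem Mv.w_mem (hS : S_SOL2) (H : Mv k Ω m s r w y T R c) : ∀ j ≤ m + 1, w j ∈ LL k m r w :=
  H.adj_eq hS (by omega) le_rfl (by omega) _ H.r_mem
    (IntermediateField.subset_adjoin _ _ ⟨Sum.inr 0, rfl⟩)
    (IntermediateField.subset_adjoin _ _ ⟨Sum.inr 1, rfl⟩)

theorem Mv.adj (hS : S_SOL2) (H : Mv k Ω m s r w y T R c) {a b : ℕ} (ha : a ≤ m + 1)
    (hb : b ≤ m + 1) (hab : a ≠ b) :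
    IntermediateField.adjoin k (Set.range (Sum.elim (fun j : Fin (m + 2) => r j) ![w a, w b]))
      = LL k m r w := by
  apply le_antisymm
  · rw [IntermediateField.adjoin_le_iff]
    rintro x ⟨j | j, rfl⟩
    · exact H.r_mem j
    · fin_cases j
      · exact H.w_mem hS a ha
      · exact H.w_mem hS b hb
  · set L := IntermediateField.adjoin k
      (Set.range (Sum.elim (fun j : Fin (m + 2) => r j) ![w a, w b])) with hL
    have hr : ∀ j, r j ∈ L := by
      intro j
      rcases Nat.lt_or_ge j (m + 2) with h1 | h1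
      · exact IntermediateField.subset_adjoin _ _ ⟨Sum.inl ⟨j, h1⟩, rfl⟩
      · rw [H.r0 j h1]; exact zero_mem _
    have hw := H.adj_eq hS ha hb hab L hr
      (IntermediateField.subset_adjoin _ _ ⟨Sum.inr 0, rfl⟩)
      (IntermediateField.subset_adjoin _ _ ⟨Sum.inr 1, rfl⟩)
    unfold LL
    rw [IntermediateField.adjoin_le_iff]
    rintro x ⟨j | j, rfl⟩
    · exact hr j
    · fin_cases j
      · exact hw 0 (by omega)
      · exact hw (m + 1) le_rfl

theorem Mv.KK_le (hS : S_SOL2) (H : Mv k Ω m s r w y T R c) : KK k m w ≤ LL k m r w := by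
  unfold KK
  rw [IntermediateField.adjoin_le_iff]
  rintro x ⟨j, rfl⟩
  exact H.w_mem hS j (by omega)

theorem Mv.cnt (hS : S_SOL2) (hN : S_CNT) (H : Mv k Ω m s r w y T R c) {a b : ℕ}
    (ha : a ≤ m + 1) (hb : b ≤ m + 1) (hab : a ≠ b) :
    AlgebraicIndependent k (Sum.elim (fun j : Fin (m + 2) => r j) ![w a, w b]) ∧
      Transcendental (LL k m r w ⊔ IntermediateField.adjoin k (Set.range T) :
        IntermediateField k Ω) c ∧
      ∃ J : Finset (Fin (s + 1)), J.card = s ∧
        AlgebraicIndependent (LL k m r w) (fun j : J => T j) ∧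
        ∀ i, IsAlgebraic (IntermediateField.adjoin (KK k m w) (T '' (J : Set (Fin (s + 1)))))
          (T i) := by
  obtain ⟨β, hβ⟩ := H.basis
  set F0 : Fin (m + 2) ⊕ Fin 2 → Ω := Sum.elim (fun j : Fin (m + 2) => r j) ![w a, w b] with hF0
  set f : Fin (m + 2 + 2) → Ω := F0 ∘ finSumFinEquiv.symm with hf
  have hrange : Set.range f = Set.range F0 := by
    rw [hf]; exact (Equiv.surjective _).range_comp F0
  have hadj : IntermediateField.adjoin k (Set.range f) = LL k m r w := by
    rw [hrange]; exact H.adj hS ha hb hab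
  have h1 := hN k Ω (m + 2 + 2) s β hβ f T c (KK k m w) (by rw [hadj]; exact H.KK_le hS) H.nind
    (by
      set L := IntermediateField.adjoin k (Set.range f ∪ Set.range T ∪ {c}) with hL
      have hle : LL k m r w ≤ L := by
        rw [← hadj]
        apply IntermediateField.adjoin.mono
        intro x hx
        exact Or.inl (Or.inl hx)
      apply H.span L (fun j => hle (H.r_mem j)) (fun j hj => hle (H.w_mem hS j hj))
      · intro i
        exact IntermediateField.subset_adjoin _ _ (Or.inl (Or.inr ⟨i, rfl⟩))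
      · exact IntermediateField.subset_adjoin _ _ (Or.inr rfl))
  have h2 : IntermediateField.adjoin k (Set.range f ∪ Set.range T)
      = LL k m r w ⊔ IntermediateField.adjoin k (Set.range T) := by
    rw [IntermediateField.adjoin_union, hadj]
  rw [h2, hadj] at h1
  refine ⟨?_, h1.2.1, h1.2.2⟩
  have h3 := h1.1.comp finSumFinEquiv (Equiv.injective _)
  have h4 : f ∘ finSumFinEquiv = F0 := by
    funext x
    simp [hf]
  rwa [h4] at h3

end

end W560.HP
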