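import Mathlib
import Pool.Agent.W560.HP.Gp5

/-! The generic point of the contact system. -/

set_option autoImplicit false
set_option linter.unusedSectionVars false

namespace W560.HP

open Finset

theorem g_mapr {A B : Type*} [CommRing A] [CommRing B] (φ : A →+* B) (m : ℕ) (r : ℕ → A) (j : ℕ) :
    (g m r j).map φ = g m (fun i => φ (r i)) j := by
  unfold g
  simp

theorem g_coeffr {A B : Type*} [CommRing A] [CommRing B] (φ : A →+* B) (m : ℕ) (r : ℕ → A)
    (j l : ℕ) : φ ((g m r j).coeff l) = (g m (fun i => φ (r i)) j).coeff l := by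
  rw [← g_mapr, Polynomial.coeff_map]

section

variable {k Ω : Type} [Field k] [CharZero k] [Field Ω] [Algebra k Ω] {m s : ℕ} {r w y : ℕ → Ω}
  {T : Fin (s + 1) → Ω} {R : MvPolynomial (Fin (s + 1)) k} {c : Ω}

/-- lift a family to a subfield -/
noncomputable def toF (L : IntermediateField k Ω) (f : ℕ → Ω) (j : ℕ) : L :=
  open Classical in if h : f j ∈ L then ⟨f j, h⟩ else 0

theorem toF_coe (L : IntermediateField k Ω) (f : ℕ → Ω) (j : ℕ) (h : f j ∈ L) :
    ((toF L f j : L) : Ω) = f j := by
  unfold toF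
  rw [dif_pos h]

theorem Mv.genPt (hS : S_SOL2) (hN : S_CNT) (H : Mv k Ω m s r w y T R c) :
    GenPt k (LL k m r w) m (toF (LL k m r w) r) (toF (LL k m r w) w) := by
  set L := LL k m r w with hL
  have hr : ∀ j, ((toF L r j : L) : Ω) = r j := fun j => toF_coe L r j (H.r_mem j)
  have hw : ∀ j ≤ m + 1, ((toF L w j : L) : Ω) = w j := fun j hj => toF_coe L w j (H.w_mem hS j hj)
  have key : ∀ a ≤ m + 1, ∀ b ≤ m + 1, L.val ∘ (Sum.elim (fun j : Fin (m + 2) => toF L r j)
      ![toF L w a, toF L w b]) = Sum.elim (fun j : Fin (m + 2) => r j) ![w a, w b] := by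
    intro a ha b hb
    funext x
    rcases x with j | j
    · exact hr j
    · fin_cases j
      · exact hw a ha
      · exact hw b hb
  constructor
  · intro j hj
    apply Subtype.ext
    rw [hr, H.r0 j hj]; rfl
  · intro l hl
    apply (algebraMap L Ω).injective
    rw [map_zero, map_sum, ← H.con l hl]
    refine Finset.sum_congr rfl fun j hj => ?_
    have hj' := Finset.mem_range.mp hj
    rw [map_mul, g_coeffr]
    congr 1
    · congr 2
      funext i
      exact hr i
    · exact hw j (by omega)
  · intro a ha b hb hab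
    apply AlgebraicIndependent.of_comp L.val
    rw [key a ha b hb]
    exact (H.cnt hS hN ha hb hab).1
  · intro a ha b hb hab
    apply IntermediateField.map_injective L.val
    rw [IntermediateField.adjoin_map, ← Set.range_comp, key a ha b hb, H.adj hS ha hb hab,
      ← AlgHom.fieldRange_eq_map, IntermediateField.fieldRange_val]

theorem Mv.clo (hS : S_SOL2) (hN : S_CNT) (hClo : S_CLO) (hm : 3 ≤ m)
    (H : Mv k Ω m s r w y T R c) :
    ∀ x ∈ LL k m r w, IsAlgebraic (KK k m w) x → x ∈ KK k m w := by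
  set L := LL k m r w with hL
  have hG := H.genPt hS hN
  have h1 := hClo k L m (toF L r) (toF L w) hm hG
  set K' := IntermediateField.adjoin k (Set.range fun j : Fin (m + 2) => toF L w j) with hK'
  have hw : ∀ j ≤ m + 1, ((toF L w j : L) : Ω) = w j := fun j hj => toF_coe L w j (H.w_mem hS j hj)
  have hmap : K'.map L.val = KK k m w := by
    rw [hK', IntermediateField.adjoin_map, ← Set.range_comp]
    unfold KK
    congr 1
    ext x
    constructor
    · rintro ⟨j, rfl⟩
      exact ⟨j, (hw j (by omega)).symm⟩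
    · rintro ⟨j, rfl⟩
      exact ⟨j, hw j (by omega)⟩
  intro x hx hxa
  have hmem : ∀ z : L, z ∈ K' ↔ (z : Ω) ∈ KK k m w := by
    intro z
    rw [← hmap]
    constructor
    · intro hz; exact ⟨z, hz, rfl⟩
    · rintro ⟨z', hz', e⟩
      have : z' = z := Subtype.ext e
      rwa [← this]
  let f : K' →+* KK k m w := ((algebraMap L Ω).comp (algebraMap K' L)).codRestrict
    (KK k m w).toSubfield (fun z => (hmem z).mp z.2)
  have hf : Function.Surjective f := by
    rintro ⟨z, hz⟩
    have hz2 := hz
    rw [← hmap] at hz2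
    obtain ⟨z', hz', e⟩ := hz2
    exact ⟨⟨z', hz'⟩, Subtype.ext e⟩
  have h2 : IsAlgebraic K' (⟨x, hx⟩ : L) := by
    apply IsAlgebraic.of_ringHom_of_comp_eq (S := KK k m w) (B := Ω) f (algebraMap L Ω)
      (a := (⟨x, hx⟩ : L)) hxa hf (algebraMap L Ω).injective
    rfl
  exact (hmem _).mp (h1 _ h2)

theorem Mv.w_indep (hS : S_SOL2) (hN : S_CNT) (hSp : S_SPEC) (hm : 3 ≤ m)
    (H : Mv k Ω m s r w y T R c) : AlgebraicIndependent k (fun j : Fin (m + 2) => w j) := by
  set L := LL k m r w with hL
  have hG := H.genPt hS hN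
  have h1 := (hSp k L m (toF L r) (toF L w) hm hG 0).1
  have h2 := h1.map' (f := L.val) L.val.injective
  have h3 : L.val ∘ (fun j : Fin (m + 2) => toF L w j) = fun j : Fin (m + 2) => w j := by
    funext j
    exact toF_coe L w j (H.w_mem hS j (by omega))
  rwa [h3] at h2

end

end W560.HP
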