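import Mathlib
import Pool.Agent.W560.HP.Gp6

/-! The function field is algebraically closed in the parameter field. -/

set_option autoImplicit false
set_option linter.unusedSectionVars false

namespace W560.HP

open Finset

section

variable {k Ω : Type} [Field k] [CharZero k] [Field Ω] [Algebra k Ω] {m s : ℕ} {r w y : ℕ → Ω}
  {T : Fin (s + 1) → Ω} {R : MvPolynomial (Fin (s + 1)) k} {c : Ω}

/-- the function field of the cone -/
def KY (k : Type) {Ω : Type} [Field k] [Field Ω] [Algebra k Ω] (m : ℕ) {s : ℕ} (y : ℕ → Ω)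
    (T : Fin (s + 1) → Ω) : IntermediateField k Ω :=
  IntermediateField.adjoin k ((fun j : Fin (m + 3) => y j) '' Set.univ ∪ Set.range T)

theorem Mv.y_mem (_ : Mv k Ω m s r w y T R c) : ∀ j ≤ m + 2, y j ∈ KY k m y T := by
  intro j hj
  exact IntermediateField.subset_adjoin _ _ (Or.inl ⟨⟨j, by omega⟩, trivial, rfl⟩)

theorem Mv.T_mem (_ : Mv k Ω m s r w y T R c) (i : Fin (s + 1)) : T i ∈ KY k m y T :=
  IntermediateField.subset_adjoin _ _ (Or.inr ⟨i, rfl⟩)

theorem Mv.KK_le' (H : Mv k Ω m s r w y T R c) : KK k m w ≤ KY k m y T := by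
  unfold KK
  rw [IntermediateField.adjoin_le_iff]
  rintro x ⟨j, rfl⟩
  change w j ∈ _
  rw [← H.yw j (by omega)]
  exact mul_mem (pow_mem (H.y_mem j (by omega)) _) (H.y_mem (j + 1) (by omega))

theorem Mv.y_alg (hm : 3 ≤ m) (H : Mv k Ω m s r w y T R c) {F : Type} [Field F] [Algebra F Ω]
    (hw : ∀ j ≤ m + 1, IsAlgebraic F (w j)) (hT : IsAlgebraic F (T 0)) :
    ∀ j ≤ m + 2, IsAlgebraic F (y j) :=
  chain_alg (by omega) hw H.yne H.yw (by rw [← H.T0]; exact hT)

theorem Mv.closed1 (hS : S_SOL2) (hN : S_CNT) (hClo : S_CLO) (hBC : S_BC) (hm : 3 ≤ m)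
    (H : Mv k Ω m s r w y T R c) :
    ∀ x ∈ LL k m r w ⊔ KY k m y T, IsAlgebraic (KY k m y T) x → x ∈ KY k m y T := by
  classical
  obtain ⟨J, hJ, hJi, hJa⟩ := (H.cnt hS hN (a := 0) (b := m + 1) (by omega) le_rfl
    (by omega)).2.2
  apply hBC k Ω (KK k m w) (LL k m r w) (KY k m y T) (H.KK_le hS) H.KK_le'
    (H.clo hS hN hClo hm)
  · have hfin : ((fun j : Fin (m + 3) => y j) '' Set.univ ∪ Set.range T).Finite :=
      (Set.Finite.image _ Set.finite_univ).union (Set.finite_range T)
    refine ⟨hfin.toFinset, ?_⟩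
    rw [Set.Finite.coe_toFinset]
    exact (sup_eq_right.mpr H.KK_le').symm
  · refine ⟨J.image T, ?_, ?_, ?_⟩
    · intro x hx
      rw [Finset.coe_image] at hx
      obtain ⟨i, _, rfl⟩ := hx
      exact H.T_mem i
    · exact hJi.to_subtype_range' (by
        rw [Finset.coe_image]
        ext x
        constructor
        · rintro ⟨j, rfl⟩; exact ⟨j, j.2, rfl⟩
        · rintro ⟨j, hj, rfl⟩; exact ⟨⟨j, hj⟩, rfl⟩)
    · rw [Finset.coe_image]
      set G : IntermediateField (KK k m w) Ω :=
        IntermediateField.adjoin (KK k m w) (T '' (J : Set (Fin (s + 1)))) with hG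
      have hw : ∀ j ≤ m + 1, IsAlgebraic G (w j) := by
        intro j hj
        have : w j ∈ KK k m w := IntermediateField.subset_adjoin _ _ ⟨⟨j, by omega⟩, rfl⟩
        have h2 : w j = algebraMap G Ω (algebraMap (KK k m w) G ⟨w j, this⟩) := rfl
        rw [h2]
        exact isAlgebraic_algebraMap _
      have hy := H.y_alg hm hw (hJa 0)
      have hle : KY k m y T ≤ ((algebraicClosure G Ω).restrictScalars (KK k m w)).restrictScalars
          k := by
        unfold KY
        rw [IntermediateField.adjoin_le_iff]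
        rintro x (⟨j, _, rfl⟩ | ⟨i, rfl⟩)
        · exact mem_algebraicClosure_iff.mpr (hy j (by omega))
        · exact mem_algebraicClosure_iff.mpr (hJa i)
      intro x hx
      exact mem_algebraicClosure_iff.mp (hle hx)

theorem Mv.closed2 (hS : S_SOL2) (hN : S_CNT) (hClo : S_CLO) (hBC : S_BC) (hB0 : S_BC0)
    (hm : 3 ≤ m) (H : Mv k Ω m s r w y T R c) (x : Ω) (hx : IsAlgebraic (KY k m y T) x) :
    x ∈ KY k m y T := by
  set F2 : IntermediateField k Ω := LL k m r w ⊔ KY k m y T with hF2
  apply H.closed1 hS hN hClo hBC hm x ?_ hx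
  have hct := (H.cnt hS hN (a := 0) (b := m + 1) (by omega) le_rfl (by omega)).2.1
  set G : IntermediateField k Ω :=
    LL k m r w ⊔ IntermediateField.adjoin k (Set.range T) with hG
  -- everything in F2 is algebraic over G
  have hwG : ∀ j ≤ m + 1, IsAlgebraic G (w j) := fun j hj =>
    alg_mem ((le_sup_left : LL k m r w ≤ G) (H.w_mem hS j hj))
  have hTG : ∀ i, T i ∈ G := fun i =>
    (le_sup_right : IntermediateField.adjoin k (Set.range T) ≤ G)
      (IntermediateField.subset_adjoin _ _ ⟨i, rfl⟩)
  have hyG := H.y_alg hm hwG (alg_mem (hTG 0))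
  have hF2G : ∀ z ∈ F2, IsAlgebraic G z := by
    have hle : F2 ≤ (algebraicClosure G Ω).restrictScalars k := by
      rw [hF2, sup_le_iff]
      constructor
      · intro z hz
        exact mem_algebraicClosure_iff.mpr (alg_mem ((le_sup_left : LL k m r w ≤ G) hz))
      · unfold KY
        rw [IntermediateField.adjoin_le_iff]
        rintro z (⟨j, _, rfl⟩ | ⟨i, rfl⟩)
        · exact mem_algebraicClosure_iff.mpr (hyG j (by omega))
        · exact mem_algebraicClosure_iff.mpr (alg_mem (hTG i))
    intro z hz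
    exact mem_algebraicClosure_iff.mp (hle hz)
  have hc : Transcendental F2 c := fun h => hct (alg_trans hF2G h)
  have hci : AlgebraicIndependent F2 (fun _ : Unit => c) :=
    algebraicIndependent_unique_type_iff.mpr hc
  have htop : IntermediateField.adjoin F2 (Set.range fun _ : Unit => c) = ⊤ := by
    have h1 : (IntermediateField.adjoin F2 (Set.range fun _ : Unit => c)).restrictScalars k
        = ⊤ := by
      have hF : ∀ z ∈ F2, z ∈
          (IntermediateField.adjoin F2 (Set.range fun _ : Unit => c)).restrictScalars k := by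
        intro z hz
        have h6 := (IntermediateField.adjoin F2 (Set.range fun _ : Unit => c)).algebraMap_mem
          (⟨z, hz⟩ : F2)
        exact h6
      apply H.top
      · intro j
        exact hF _ ((le_sup_left : LL k m r w ≤ F2) (H.r_mem j))
      · intro j hj
        exact hF _ ((le_sup_right : KY k m y T ≤ F2) (H.y_mem j hj))
      · intro i
        exact hF _ ((le_sup_right : KY k m y T ≤ F2) (H.T_mem i))
      · have h6 : c ∈ IntermediateField.adjoin F2 (Set.range fun _ : Unit => c) :=
          IntermediateField.subset_adjoin _ _ ⟨(), rfl⟩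
        exact h6
    rw [eq_top_iff]
    intro z _
    have : z ∈ (IntermediateField.adjoin F2 (Set.range fun _ : Unit => c)).restrictScalars k := by
      rw [h1]; trivial
    exact this
  obtain ⟨z, hz⟩ := hB0 F2 Ω Unit (fun _ => c) hci x (by rw [htop]; trivial)
    (alg_mono (le_sup_right : KY k m y T ≤ F2) hx)
  rw [← hz]
  exact z.2

end

end W560.HP
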