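import Mathlib
import Pool.Agent.W560.HP.Gp7

/-! The Hilbert property of the function field of the chain hypersurface. -/

set_option autoImplicit false
set_option linter.unusedSectionVars false

namespace W560.HP

open Finset

section

variable {k Ω : Type} [Field k] [CharZero k] [Field Ω] [Algebra k Ω] {m s : ℕ} {r w y : ℕ → Ω}
  {T : Fin (s + 1) → Ω} {R : MvPolynomial (Fin (s + 1)) k} {c : Ω}

/-- the homogeneous coordinates of the generic point -/
def YY (m : ℕ) {s : ℕ} (y : ℕ → Ω) (T : Fin (s + 1) → Ω) (i : Fin (m + 2 + s + 1)) : Ω :=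
  if h : (i : ℕ) < m + 2 then y i else T ⟨(i : ℕ) - (m + 2), by omega⟩

theorem YY_lt {i : Fin (m + 2 + s + 1)} (h : (i : ℕ) < m + 2) : YY m y T i = y i := by
  unfold YY; rw [dif_pos h]

theorem YY_ge (j : Fin (s + 1)) : YY m y T ⟨m + 2 + j, by omega⟩ = T j := by
  unfold YY
  rw [dif_neg (by simp)]
  congr 1
  apply Fin.ext
  simp

theorem Mv.YY_nat (H : Mv k Ω m s r w y T R c) (i : ℕ) (h : i ≤ m + 2) :
    YY m y T (Fin.ofNat (m + 2 + s + 1) i) = y i := by
  have hv : ((Fin.ofNat (m + 2 + s + 1) i : Fin (m + 2 + s + 1)) : ℕ) = i := by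
    rw [Fin.val_ofNat]
    exact Nat.mod_eq_of_lt (by omega)
  rcases Nat.lt_or_ge i (m + 2) with h1 | h1
  · rw [YY_lt (by rw [hv]; exact h1), hv]
  · have h2 : i = m + 2 := by omega
    have h3 : (Fin.ofNat (m + 2 + s + 1) i : Fin (m + 2 + s + 1))
        = ⟨m + 2 + ((0 : Fin (s + 1)) : ℕ), by simp⟩ := by
      apply Fin.ext
      rw [hv, h2]
      simp
    rw [h3, YY_ge, H.T0, h2]

theorem Mv.range_eq (H : Mv k Ω m s r w y T R c) :
    IntermediateField.adjoin k (Set.range (YY m y T)) = KY k m y T := by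
  apply le_antisymm
  · rw [IntermediateField.adjoin_le_iff]
    rintro x ⟨i, rfl⟩
    rcases Nat.lt_or_ge i (m + 2) with h1 | h1
    · rw [YY_lt h1]; exact H.y_mem i (by omega)
    · unfold YY
      rw [dif_neg (by omega)]
      exact H.T_mem _
  · unfold KY
    rw [IntermediateField.adjoin_le_iff]
    rintro x (⟨j, _, rfl⟩ | ⟨i, rfl⟩)
    · exact IntermediateField.subset_adjoin _ _ ⟨_, H.YY_nat j (by omega)⟩
    · exact IntermediateField.subset_adjoin _ _ ⟨_, YY_ge i⟩

theorem Mv.chain_zero (H : Mv k Ω m s r w y T R c) (R' : MvPolynomial (Fin (m + 2 + s + 1)) k)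
    (hR' : MvPolynomial.rename (fun j : Fin (s + 1) => (⟨m + 2 + j, by omega⟩ :
      Fin (m + 2 + s + 1))) R = R') :
    MvPolynomial.aeval (YY m y T) (chain k (m + 1) (m + 2 + s) R') = 0 := by
  unfold chain
  rw [map_add, map_sum, ← hR', MvPolynomial.aeval_rename, ← H.sum]
  congr 1
  · refine Finset.sum_congr rfl fun i hi => ?_
    have hi' := Finset.mem_range.mp hi
    rw [map_mul, map_pow, MvPolynomial.aeval_X, MvPolynomial.aeval_X, Nat.add_sub_cancel,
      H.YY_nat i (by omega), H.YY_nat (i + 1) (by omega), H.yw i (by omega)]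
  · congr 1
    congr 1
    funext j
    exact YY_ge j

theorem Mv.generic (hS : S_SOL2) (hN : S_CNT) (hSp : S_SPEC) (hI : S_IRR) (hK : S_KER)
    (hm : 3 ≤ m) (H : Mv k Ω m s r w y T R c) (R' : MvPolynomial (Fin (m + 2 + s + 1)) k)
    (hR' : MvPolynomial.rename (fun j : Fin (s + 1) => (⟨m + 2 + j, by omega⟩ :
      Fin (m + 2 + s + 1))) R = R') :
    IsGenericZero (chain k (m + 1) (m + 2 + s) R') (YY m y T) := by
  classical
  have hvars : ∀ i ∈ R'.vars, m + 1 + 1 ≤ (i : ℕ) := by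
    intro i hi
    rw [← hR'] at hi
    have := MvPolynomial.vars_rename _ R hi
    rw [Finset.mem_image] at this
    obtain ⟨j, _, rfl⟩ := this
    simp
  obtain ⟨J, hJ, hJi, hJa⟩ := (H.cnt hS hN (a := 0) (b := m + 1) (by omega) le_rfl
    (by omega)).2.2
  have hw := H.w_indep hS hN hSp hm
  have h1 : AlgebraicIndependent k (Sum.elim (fun j : J => T j) (fun j : Fin (m + 2) => w j)) := by
    apply hw.sumElim_of_tower (S := LL k m r w) _ hJi
    rintro x ⟨j, rfl⟩
    exact ⟨⟨w j, H.w_mem hS j (by omega)⟩, rfl⟩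
  apply hK k Ω (Fin (m + 2 + s + 1)) _ _ (hI k (m + 1) (m + 2 + s) R' (by omega) (by omega) hvars)
    (H.chain_zero R' hR')
  refine ⟨J ⊕ Fin (m + 2), inferInstance, _, ?_, h1, ?_⟩
  · simp only [Fintype.card_sum, Fintype.card_coe, Fintype.card_fin, hJ]
    omega
  · rw [H.range_eq]
    rintro (j | j)
    · exact alg_mem (H.T_mem _)
    · exact alg_mem (H.KK_le' (IntermediateField.subset_adjoin _ _ ⟨j, rfl⟩))

theorem ratio_closed (hB0 : S_BC0) (hRat : S_RAT) {σ : Type} [Finite σ] {d : ℕ}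
    {F : MvPolynomial σ k} {Y : σ → Ω} (hF : F.IsHomogeneous d) (hY : IsGenericZero F Y) (i0 : σ)
    (h0 : Y i0 ≠ 0)
    (hc : ∀ x : Ω, IsAlgebraic (IntermediateField.adjoin k (Set.range Y)) x →
      x ∈ IntermediateField.adjoin k (Set.range Y)) :
    ∀ x : Ω, IsAlgebraic (ratioField k Y) x → x ∈ ratioField k Y := by
  intro x hx
  have hle : ratioField k Y ≤ IntermediateField.adjoin k (Set.range Y) := by
    unfold ratioField
    rw [IntermediateField.adjoin_le_iff]
    rintro z ⟨i, j, rfl⟩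
    exact div_mem (IntermediateField.subset_adjoin _ _ ⟨i, rfl⟩)
      (IntermediateField.subset_adjoin _ _ ⟨j, rfl⟩)
  have h1 := hc x (alg_mono hle hx)
  have ht := hRat k Ω σ d F Y hF hY i0 h0
  have hti : AlgebraicIndependent (ratioField k Y) (fun _ : Unit => Y i0) :=
    algebraicIndependent_unique_type_iff.mpr ht
  have h2 : IntermediateField.adjoin k (Set.range Y) ≤
      (IntermediateField.adjoin (ratioField k Y) (Set.range fun _ : Unit => Y i0)).restrictScalars
        k := by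
    rw [IntermediateField.adjoin_le_iff]
    rintro z ⟨i, rfl⟩
    have h3 : Y i = (Y i / Y i0) * Y i0 := by field_simp
    have h4 : Y i / Y i0 ∈ ratioField k Y := IntermediateField.subset_adjoin _ _ ⟨i, i0, rfl⟩
    rw [h3]
    have h5 : Y i / Y i0 ∈
        IntermediateField.adjoin (ratioField k Y) (Set.range fun _ : Unit => Y i0) := by
      have h6 := (IntermediateField.adjoin (ratioField k Y)
        (Set.range fun _ : Unit => Y i0)).algebraMap_mem (⟨_, h4⟩ : ratioField k Y)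
      exact h6
    have h7 : Y i0 ∈
        IntermediateField.adjoin (ratioField k Y) (Set.range fun _ : Unit => Y i0) :=
      IntermediateField.subset_adjoin _ _ ⟨(), rfl⟩
    have h8 : Y i / Y i0 * Y i0 ∈
        IntermediateField.adjoin (ratioField k Y) (Set.range fun _ : Unit => Y i0) :=
      mul_mem h5 h7
    exact h8
  obtain ⟨z, hz⟩ := hB0 (ratioField k Y) Ω Unit (fun _ => Y i0) hti x (h2 h1) hx
  rw [← hz]
  exact z.2

end

theorem chain_homogeneous (k : Type) [Field k] (d n : ℕ) (hd : 1 ≤ d)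
    (R : MvPolynomial (Fin (n + 1)) k) (hR : R.IsHomogeneous d) :
    (chain k d n R).IsHomogeneous d := by
  unfold chain
  refine MvPolynomial.IsHomogeneous.add (MvPolynomial.IsHomogeneous.sum _ _ _ fun i _ => ?_) hR
  have h1 := (MvPolynomial.isHomogeneous_X_pow (R := k) (Fin.ofNat (n + 1) i) (d - 1)).mul
    (MvPolynomial.isHomogeneous_X k (Fin.ofNat (n + 1) (i + 1)))
  have h2 : d - 1 + 1 = d := by omega
  rwa [h2] at h1

/-- The function field of the chain hypersurface has the Hilbert property. -/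
theorem field_main (hC : S_CHART) (hS : S_SOL2) (hL : S_LINE) (hN : S_CNT) (hSp : S_SPEC)
    (hClo : S_CLO) (hBC : S_BC) (hB0 : S_BC0) (hI : S_IRR) (hK : S_KER) (hRat : S_RAT)
    (hP : S_P1) (hH : S_HPF) (k : Type) [Field k] [CharZero k] (hk : HilbNR k) (d n : ℕ)
    (hd : 4 ≤ d) (hn : d + 1 ≤ n) (R' : MvPolynomial (Fin (n + 1)) k) (hR' : R'.IsHomogeneous d)
    (hR0 : R' ≠ 0) (hv : ∀ i ∈ R'.vars, d + 1 ≤ (i : ℕ)) :
    ∃ (Ω : Type) (_ : Field Ω) (_ : Algebra k Ω) (Y : Fin (n + 1) → Ω),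
      IsGenericZero (chain k d n R') Y ∧ HPF k (ratioField k Y) ∧
      ∃ (ι : Type) (_ : Finite ι) (t : ι → Ω), AlgebraicIndependent k t ∧
        IntermediateField.adjoin k (Set.range t) = ⊤ := by
  obtain ⟨m, rfl⟩ : ∃ m, d = m + 1 := ⟨d - 1, by omega⟩
  obtain ⟨s, rfl⟩ : ∃ s, n = m + 2 + s := ⟨n - (m + 2), by omega⟩
  have hm : 3 ≤ m := by omega
  obtain ⟨R, hR⟩ := MvPolynomial.exists_rename_eq_of_vars_subset_range R'
    (fun j : Fin (s + 1) => (⟨m + 2 + j, by omega⟩ : Fin (m + 2 + s + 1)))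
    (by
      intro a b hab
      simp only [Fin.mk.injEq] at hab
      exact Fin.ext (by omega))
    (by
      intro i hi
      have := hv i hi
      exact ⟨⟨(i : ℕ) - (m + 2), by omega⟩, Fin.ext (by simp; omega)⟩)
  have hinj : Function.Injective
      (fun j : Fin (s + 1) => (⟨m + 2 + j, by omega⟩ : Fin (m + 2 + s + 1))) := by
    intro a b hab
    simp only [Fin.mk.injEq] at hab
    exact Fin.ext (by omega)
  have hRh : R.IsHomogeneous (m + 1) := by
    rw [← MvPolynomial.IsHomogeneous.rename_isHomogeneous_iff hinj, hR]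
    exact hR'
  have hRn : R ≠ 0 := by
    intro h
    apply hR0
    rw [← hR, h, map_zero]
  obtain ⟨Ω, iΩ, aΩ, r0, w0, u0, T, HP⟩ := hP k m s hm
  obtain ⟨r, w, y, c, H⟩ := moved hC hS hL hm HP (D := m + 1) (by omega) hRh hRn
  obtain ⟨ι, iι, t, ht, hadj⟩ := HP.pure
  have hg := H.generic hS hN hSp hI hK hm R' hR
  refine ⟨Ω, iΩ, aΩ, YY m y T, hg, ?_, ι, iι, t, ht, hadj⟩
  apply hH k Ω ι t _ hk ht hadj
  apply ratio_closed hB0 hRat (chain_homogeneous k (m + 1) (m + 2 + s) (by omega) R' hR') hg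
    (Fin.ofNat (m + 2 + s + 1) 0)
  · rw [H.YY_nat 0 (by omega)]; exact H.yne 0
  · rw [H.range_eq]
    exact H.closed2 hS hN hClo hBC hB0 hm

end W560.HP
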