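import Mathlib
import Pool.Agent.W560.HP.Gp8
import Pool.Agent.W560.HP.Stm2
import Pool.Agent.W405.HP.Hit
import Pool.Agent.W583.HP.FG
import Pool.Agent.W790.HP.HPF
import Pool.Agent.W74.HP.HPI
import Pool.Agent.W253.HP.Sch
import Pool.Agent.W347.HP.D1
import Pool.Agent.W417.HP.D2
import Pool.Agent.W417.HP.D3
import Pool.Agent.W417.HP.Cnt
import Pool.Agent.W417.HP.BC1
import Pool.Agent.W32.HP.Spz
import Pool.Agent.W108.HP.Lau
import Pool.Agent.W240.HP.Lift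
import Pool.Agent.W333.HP.BC0
import Pool.Agent.W803.HP.Bc2
import Pool.Agent.W21.HP.Bc
import Pool.Agent.W368.HP.Step
import Pool.Agent.W803.HP.Base3
import Pool.Agent.W591.HP.Base22
import Pool.Agent.W976.HP.Lev
import Pool.Agent.W806.HP.Gen
import Pool.Agent.W397.HP.Eul
import Pool.Agent.W290.HP.Diff
import Pool.Agent.W683.HP.Brk
import Pool.Agent.W99.HP.Chart
import Pool.Agent.W959.HP.Spec
import Pool.Agent.W327.HP.Clo
import Pool.Agent.W554.HP.Line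
import Pool.Agent.W460.HP.Irr
import Pool.Agent.W976.HP.Iso
import Pool.Agent.W392.HP.Rat
import Pool.Agent.W52.HP.Top
import Pool.Agent.W52.HP.Sol
import Pool.Agent.W52.HP.P1

/-! Assembly of the project HP. -/

set_option autoImplicit false

namespace W560.HP

theorem t_LEV : S_LEV := Pool.Agent.W976.HP.lev W368.HP.step Pool.Agent.W803.HP.base3
  Pool.Agent.W591.HP.Base22.base22

theorem t_BRK : S_BRK := Pool.Agent.W683.HP.brk t_LEV Pool.Agent.W806.HP.gen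
  Pool.Agent.W397.HP.t_EUL Pool.Agent.W290.HP.diff

theorem t_CHART : S_CHART := W99.HP.chart t_BRK

theorem t_TOP : S_TOP := Pool.Agent.W52.HP.top t_LEV

theorem t_SPEC : S_SPEC := W959.HP.spec t_BRK Pool.Agent.W32.HP.spz Pool.Agent.W108.HP.lau
  Pool.Agent.W240.HP.lift

theorem t_CLO : S_CLO := Pool.Agent.W327.HP.clo t_SPEC W347.HP.d1
  (Pool.Agent.W417.HP.d2 W347.HP.d1) (Pool.Agent.W417.HP.d3 W347.HP.d1) Pool.Agent.W333.HP.bc0

theorem t_BC : S_BC := Pool.Agent.W21.HP.bc Pool.Agent.W417.HP.bc1 Pool.Agent.W803.HP.bc2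

theorem t_P1 : S_P1 := Pool.Agent.W52.HP.P.p1 t_CHART t_TOP Pool.Agent.W52.HP.sol1
  Pool.Agent.W52.HP.sol2 Pool.Agent.W240.HP.lift

theorem t_field (hK : S_KER) (k : Type) [Field k] [CharZero k] (hk : HilbNR k) (d n : ℕ)
    (hd : 4 ≤ d) (hn : d + 1 ≤ n) (R : MvPolynomial (Fin (n + 1)) k) (hR : R.IsHomogeneous d)
    (hR0 : R ≠ 0) (hv : ∀ i ∈ R.vars, d + 1 ≤ (i : ℕ)) :
    ∃ (Ω : Type) (_ : Field Ω) (_ : Algebra k Ω) (Y : Fin (n + 1) → Ω),
      IsGenericZero (chain k d n R) Y ∧ HPF k (ratioField k Y) ∧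
      ∃ (ι : Type) (_ : Finite ι) (t : ι → Ω), AlgebraicIndependent k t ∧
        IntermediateField.adjoin k (Set.range t) = ⊤ :=
  field_main t_CHART Pool.Agent.W52.HP.sol2 Pool.Agent.W554.HP.line Pool.Agent.W417.HP.cnt
    t_SPEC t_CLO t_BC Pool.Agent.W333.HP.bc0 Pool.Agent.W460.HP.irr hK Pool.Agent.W392.HP.rat
    t_P1 Pool.Agent.W790.HP.hpf k hk d n hd hn R hR hR0 hv

end W560.HP
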