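import Mathlib
import Pool.Agent.W560.HP.Main

/-! Final form: schemes, and the nonsingular members. -/

set_option autoImplicit false

namespace W560.HP

open AlgebraicGeometry CategoryTheory

/-- The integral `k`-scheme `X` has the function field of the projective hypersurface `F = 0`,
compatibly with `k`. -/
def BirationalToForm (k : Type) [Field k] {σ : Type} (F : MvPolynomial σ k) (X : Scheme.{0})
    [IsIntegral X] (f : X ⟶ Spec (CommRingCat.of k)) : Prop :=
  ∃ (Q : Type) (_ : Field Q) (_ : Algebra k Q) (y : σ → Q), IsGenericZero F y ∧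
    ∃ e : X.functionField ≃+* ratioField k y,
      ∀ a : k, e (toFF k X f a) = algebraMap k (ratioField k y) a

/-- The integral `k`-scheme `X` is unirational over `k`: its function field embeds over `k` in a
field of rational functions in finitely many variables. -/
def UnirationalScheme (k : Type) [Field k] (X : Scheme.{0}) [IsIntegral X]
    (f : X ⟶ Spec (CommRingCat.of k)) : Prop :=
  ∃ (ι : Type) (_ : Finite ι) (φ : X.functionField →+* FractionRing (MvPolynomial ι k)),
    ∀ a : k, φ (toFF k X f a) = algebraMap k (FractionRing (MvPolynomial ι k)) a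

theorem scheme_main (hK : S_KER) (k : Type) [Field k] [CharZero k]
    (hk : ∃ S : Finset k, IntermediateField.adjoin ℚ (S : Set k) = ⊤) (d n : ℕ)
    (hd : 4 ≤ d) (hn : d + 1 ≤ n) (R : MvPolynomial (Fin (n + 1)) k) (hR : R.IsHomogeneous d)
    (hR0 : R ≠ 0) (hv : ∀ i ∈ R.vars, d + 1 ≤ (i : ℕ)) (X : Scheme.{0}) [IsIntegral X]
    (f : X ⟶ Spec (CommRingCat.of k)) [LocallyOfFiniteType f]
    (hX : BirationalToForm k (chain k d n R) X f) :
    HilbertProperty k X f ∧ UnirationalScheme k X f := by
  obtain ⟨S, hS⟩ := hk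
  have hkN : HilbNR k := Pool.Agent.W405.HP.hit k (Pool.Agent.W583.HP.fg k S hS)
  obtain ⟨Ω, _, _, Y, hY, hH, ι, hι, t, ht, hadj⟩ := t_field hK k hkN d n hd hn R hR hR0 hv
  obtain ⟨Q, _, _, y, hy, e, he⟩ := hX
  have hiso := Pool.Agent.W976.HP.iso k Ω Q _ _ Y y hY hy
  have h1 : HPF k (ratioField k y) := Pool.Agent.W74.HP.hpi k _ _ hiso hH
  refine ⟨Pool.Agent.W253.HP.sch k X f _ e he h1, ?_⟩
  obtain ⟨g⟩ := hiso
  obtain ⟨Ψ, -⟩ := Pool.Agent.W240.HP.lift k Ω (FractionRing (MvPolynomial ι k)) ι t
    (fun i => algebraMap (MvPolynomial ι k) _ (MvPolynomial.X i)) ht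
    ((MvPolynomial.algebraicIndependent_X ι k).map'
      (f := IsScalarTower.toAlgHom k (MvPolynomial ι k) (FractionRing (MvPolynomial ι k)))
      (IsFractionRing.injective (MvPolynomial ι k) (FractionRing (MvPolynomial ι k)))) hadj
  let χ : ratioField k y →ₐ[k] FractionRing (MvPolynomial ι k) :=
    (Ψ.comp (ratioField k Y).val).comp (g.symm : ratioField k y →ₐ[k] ratioField k Y)
  refine ⟨ι, hι, (χ : ratioField k y →+* FractionRing (MvPolynomial ι k)).comp
    (e : X.functionField →+* ratioField k y), fun a => ?_⟩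
  change χ (e (toFF k X f a)) = _
  rw [he a, AlgHom.commutes]

end W560.HP
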