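import Mathlib
import Pool.Agent.W560.HP.Fin
import Pool.Agent.W560.HP.Diag
import Pool.Agent.W560.HP.Stm5
import Pool.Agent.W417.HP.Ker

/-! Final form for normal schemes. -/

set_option autoImplicit false

namespace W560.HP

open AlgebraicGeometry CategoryTheory

/-- The Hilbert property in the form used for normal schemes: for every finite family of finite
surjective morphisms `π i : Y i ⟶ X` with `Y i` integral, none of them an isomorphism, the
`k`-points of `X` which are not images of `k`-points of the `Y i` are dense in `X`. -/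
def HilbertPropertyIso (k : Type) [Field k] (X : Scheme.{0}) (f : X ⟶ Spec (CommRingCat.of k)) :
    Prop :=
  ∀ (q : ℕ) (Y : Fin q → Scheme.{0}) (π : ∀ i, Y i ⟶ X), (∀ i, IsIntegral (Y i)) →
    (∀ i, IsFinite (π i)) → (∀ i, Surjective (π i)) → (∀ i, ¬ IsIso (π i)) →
    Dense {x : X | ∃ s : Spec (CommRingCat.of k) ⟶ X, s ≫ f = 𝟙 _ ∧ x ∈ Set.range s.base ∧
      ∀ i (t : Spec (CommRingCat.of k) ⟶ Y i), t ≫ π i ≠ s}

theorem iso_of_hp (hN : S_NRM) (k : Type) [Field k] (X : Scheme.{0}) [IsIntegral X]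
    (f : X ⟶ Spec (CommRingCat.of k)) (hX : ∀ x : X, IsIntegrallyClosed (X.presheaf.stalk x))
    (h : HilbertProperty k X f) : HilbertPropertyIso k X f := by
  intro q Y π hY h1 h2 h3
  refine h q Y π hY h1 h2 fun i hs => ?_
  have := hY i
  exact h3 i (hN X (Y i) (π i) hX (h1 i) (h2 i) hs)

theorem main (k : Type) [Field k] [CharZero k]
    (hk : ∃ S : Finset k, IntermediateField.adjoin ℚ (S : Set k) = ⊤) (d n : ℕ)
    (hd : 4 ≤ d) (hn : d + 1 ≤ n) (R : MvPolynomial (Fin (n + 1)) k) (hR : R.IsHomogeneous d)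
    (hR0 : R ≠ 0) (hv : ∀ i ∈ R.vars, d + 1 ≤ (i : ℕ)) (X : Scheme.{0}) [IsIntegral X]
    (f : X ⟶ Spec (CommRingCat.of k)) [LocallyOfFiniteType f]
    (hX : BirationalToForm k (chain k d n R) X f) :
    HilbertProperty k X f ∧ UnirationalScheme k X f :=
  scheme_main Pool.Agent.W417.HP.ker k hk d n hd hn R hR hR0 hv X f hX

end W560.HP
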